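import Pool.Agent.R959.Wt

set_option autoImplicit false
set_option linter.unusedSectionVars false
set_option linter.unusedVariables false

/-! The cocycle identity for relative weights. -/

namespace Pool.Agent.R959.Wt

open MeasureTheory Set
open scoped ENNReal

variable {V : Type} {G : SimpleGraph V} {Γ : Subgroup (G ≃g G)}

variable (Γ) in
/-- stabiliser inside `Γ` -/
def stab (x : V) : Subgroup (G ≃g G) := Γ ⊓ MulAction.stabilizer (G ≃g G) x

theorem mem_stab {x : V} {g : G ≃g G} : g ∈ stab Γ x ↔ g ∈ Γ ∧ g x = x := by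
  simp [stab, Subgroup.mem_inf, MulAction.mem_stabilizer_iff]

theorem orb_ncard (x y : V) : (orb G Γ x y).ncard = (stab Γ y).relIndex (stab Γ x) := by
  have h1 : orb G Γ x y = MulAction.orbit (stab Γ x) y := by
    ext z
    simp only [orb, MulAction.orbit, Set.mem_range, Set.mem_ofPred_eq]
    constructor
    · rintro ⟨γ, h1, h2, h3⟩
      exact ⟨⟨γ, mem_stab.2 ⟨h1, h2⟩⟩, h3⟩
    · rintro ⟨⟨γ, hγ⟩, h⟩
      obtain ⟨h1, h2⟩ := mem_stab.1 hγ
      exact ⟨γ, h1, h2, h⟩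
  have h2 : MulAction.stabilizer (stab Γ x) y = (stab Γ y).subgroupOf (stab Γ x) := by
    ext ⟨γ, hγ⟩
    rw [MulAction.mem_stabilizer_iff, Subgroup.mem_subgroupOf, mem_stab]
    constructor
    · intro h
      exact ⟨(mem_stab.1 hγ).1, h⟩
    · intro h
      exact h.2
  rw [h1, ← MulAction.index_stabilizer, h2]
  rfl

theorem orb_self_mem (x y : V) : y ∈ orb G Γ x y := ⟨1, Γ.one_mem, rfl, rfl⟩

theorem orb_self (x : V) : orb G Γ x x = {x} := by
  ext z
  simp only [orb, Set.mem_ofPred_eq, Set.mem_singleton_iff]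
  constructor
  · rintro ⟨γ, _, h1, h2⟩; rw [← h2, h1]
  · rintro rfl; exact ⟨1, Γ.one_mem, rfl, rfl⟩

theorem wt_self (x : V) : wt G Γ x x = 1 := by
  simp [wt, orb_self]

theorem orb_ne (hfin : ∀ x y, (orb G Γ x y).Finite) (x y : V) :
    (stab Γ y).relIndex (stab Γ x) ≠ 0 := by
  rw [← orb_ncard]
  exact ((Set.ncard_pos (hfin x y)).2 ⟨y, orb_self_mem x y⟩).ne'

theorem wt_cocycle (hfin : ∀ x y, (orb G Γ x y).Finite) (x y z : V) :
    wt G Γ z x = wt G Γ y x * wt G Γ z y := by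
  set H := stab Γ x ⊓ (stab Γ y ⊓ stab Γ z) with hH
  have key : ∀ a b c : V, H = stab Γ a ⊓ stab Γ b ⊓ stab Γ c →
      (stab Γ b).relIndex (stab Γ a) * H.relIndex (stab Γ b) =
        (stab Γ a).relIndex (stab Γ b) * H.relIndex (stab Γ a) := by
    intro a b c h
    have e1 : H.relIndex (stab Γ a) =
        H.relIndex (stab Γ a ⊓ stab Γ b) * (stab Γ b).relIndex (stab Γ a) := by
      rw [← Subgroup.inf_relIndex_left (stab Γ a) (stab Γ b)]
      exact (Subgroup.relIndex_mul_relIndex _ _ _ (by rw [h]; exact inf_le_left) inf_le_left).symm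
    have e2 : H.relIndex (stab Γ b) =
        H.relIndex (stab Γ a ⊓ stab Γ b) * (stab Γ a).relIndex (stab Γ b) := by
      rw [← Subgroup.inf_relIndex_right (stab Γ a) (stab Γ b)]
      exact (Subgroup.relIndex_mul_relIndex _ _ _ (by rw [h]; exact inf_le_left) inf_le_right).symm
    rw [e1, e2]; ring
  have k1 := key x y z (by rw [hH, inf_assoc])
  have k2 := key y z x (by rw [hH, inf_comm])
  have k3 := key x z y (by rw [hH, inf_assoc, inf_comm (stab Γ z)])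
  have n1 : ∀ a : V, H.relIndex (stab Γ a) ≠ 0 := by
    intro a
    exact Subgroup.relIndex_inf_ne_zero (orb_ne hfin a x)
      (Subgroup.relIndex_inf_ne_zero (orb_ne hfin a y) (orb_ne hfin a z))
  unfold wt
  simp only [orb_ncard]
  have q : ∀ a b : V, ((stab Γ b).relIndex (stab Γ a) : ℝ) ≠ 0 := by
    intro a b; exact_mod_cast orb_ne hfin a b
  have m1 : ((stab Γ y).relIndex (stab Γ x) : ℝ) * (H.relIndex (stab Γ y) : ℝ) =
        ((stab Γ x).relIndex (stab Γ y) : ℝ) * (H.relIndex (stab Γ x) : ℝ) := by exact_mod_cast k1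
  have m2 : ((stab Γ z).relIndex (stab Γ y) : ℝ) * (H.relIndex (stab Γ z) : ℝ) =
        ((stab Γ y).relIndex (stab Γ z) : ℝ) * (H.relIndex (stab Γ y) : ℝ) := by exact_mod_cast k2
  have m3 : ((stab Γ z).relIndex (stab Γ x) : ℝ) * (H.relIndex (stab Γ z) : ℝ) =
        ((stab Γ x).relIndex (stab Γ z) : ℝ) * (H.relIndex (stab Γ x) : ℝ) := by exact_mod_cast k3
  have n2 : ∀ a : V, (H.relIndex (stab Γ a) : ℝ) ≠ 0 := by intro a; exact_mod_cast n1 a
  have d1 : ((stab Γ y).relIndex (stab Γ x) : ℝ) / ((stab Γ x).relIndex (stab Γ y) : ℝ) =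
      (H.relIndex (stab Γ x) : ℝ) / (H.relIndex (stab Γ y) : ℝ) := by
    rw [div_eq_div_iff (q _ _) (n2 _)]; linarith
  have d2 : ((stab Γ z).relIndex (stab Γ y) : ℝ) / ((stab Γ y).relIndex (stab Γ z) : ℝ) =
      (H.relIndex (stab Γ y) : ℝ) / (H.relIndex (stab Γ z) : ℝ) := by
    rw [div_eq_div_iff (q _ _) (n2 _)]; linarith
  have d3 : ((stab Γ z).relIndex (stab Γ x) : ℝ) / ((stab Γ x).relIndex (stab Γ z) : ℝ) =
      (H.relIndex (stab Γ x) : ℝ) / (H.relIndex (stab Γ z) : ℝ) := by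
    rw [div_eq_div_iff (q _ _) (n2 _)]; linarith
  rw [d1, d2, d3, div_mul_div_cancel₀ (n2 y)]

theorem wt_of_adj (hfin : ∀ x y, (orb G Γ x y).Finite) (hconn : G.Connected)
    (r : ℝ) (hr : 0 < r) (h : V → ℤ)
    (hadj : ∀ x y, G.Adj x y → wt G Γ y x = r ^ (h x - h y)) (x y : V) :
    wt G Γ y x = r ^ (h x - h y) := by
  obtain ⟨q⟩ := hconn.preconnected x y
  induction q with
  | nil => simp [wt_self]
  | @cons a b c h1 q ih =>
    rw [wt_cocycle hfin a b c, ih, hadj a b h1, ← zpow_add₀ hr.ne']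
    congr 1; ring

theorem orb_map {γ : G ≃g G} (hγ : γ ∈ Γ) (v u : V) :
    orb G Γ (γ v) (γ u) = γ '' orb G Γ v u := by
  ext x
  simp only [orb, Set.mem_ofPred_eq, Set.mem_image]
  constructor
  · rintro ⟨δ, hδ, h1, h2⟩
    refine ⟨γ⁻¹ x, ⟨γ⁻¹ * δ * γ, Γ.mul_mem (Γ.mul_mem (Γ.inv_mem hγ) hδ) hγ, ?_, ?_⟩, ?_⟩
    · rw [RelIso.mul_apply, RelIso.mul_apply, h1, RelIso.inv_apply_self]
    · rw [RelIso.mul_apply, RelIso.mul_apply, h2]
    · rw [RelIso.apply_inv_self]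
  · rintro ⟨y, ⟨δ, hδ, h1, rfl⟩, rfl⟩
    refine ⟨γ * δ * γ⁻¹, Γ.mul_mem (Γ.mul_mem hγ hδ) (Γ.inv_mem hγ), ?_, ?_⟩
    · rw [RelIso.mul_apply, RelIso.mul_apply, RelIso.inv_apply_self, h1]
    · rw [RelIso.mul_apply, RelIso.mul_apply, RelIso.inv_apply_self]

end Pool.Agent.R959.Wt
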