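import Pool.Agent.R959.Coc

set_option autoImplicit false
set_option linter.unusedSectionVars false
set_option linter.unusedVariables false

/-! The oriented regular tree in which every vertex has `a` out-neighbours and `b` in-neighbours,
built from reduced words, and its group of height-difference preserving automorphisms. -/

namespace Pool.Agent.R959.HTree

open Set

variable (a b : ℕ) [NeZero a] [NeZero b]

/-- letters: `inl i` is a step up (to an out-neighbour), `inr j` a step down. -/
abbrev Lt := Fin a ⊕ Fin b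

variable {a b}

/-- `ok x y`: the letter `x` may be written right after `y`. -/
def ok : Lt a b → Lt a b → Prop
  | .inl i, .inr _ => i ≠ 0
  | .inr j, .inl _ => j ≠ 0
  | _, _ => True

/-- height increment -/
def eps : Lt a b → ℤ
  | .inl _ => 1
  | .inr _ => -1

/-- height of a word -/
def htl (w : List (Lt a b)) : ℤ := (w.map eps).sum

@[simp] theorem htl_nil : htl ([] : List (Lt a b)) = 0 := rfl
@[simp] theorem htl_cons (l : Lt a b) (w : List (Lt a b)) : htl (l :: w) = eps l + htl w := by
  simp [htl]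

variable (a b) in
/-- vertices: reduced words, the head of the list being the last letter written -/
abbrev Vt := {w : List (Lt a b) // w.IsChain ok}

/-- height of a vertex -/
def ht (x : Vt a b) : ℤ := htl x.1

variable (a b) in
/-- the tree -/
def tree : SimpleGraph (Vt a b) where
  Adj x y := (∃ l, y.1 = l :: x.1) ∨ (∃ l, x.1 = l :: y.1)
  symm := ⟨fun x y h => h.symm⟩
  loopless := ⟨by
    rintro x (⟨l, h⟩ | ⟨l, h⟩)
    · exact absurd h.symm (List.cons_ne_self l x.1)
    · exact absurd h.symm (List.cons_ne_self l x.1)⟩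

theorem ok_inl (x : Lt a b) : ok x (.inl 0) ↔ x ≠ .inr 0 := by
  rcases x with i | j <;> simp [ok]

theorem ok_inr (x : Lt a b) : ok x (.inr 0) ↔ x ≠ .inl 0 := by
  rcases x with i | j <;> simp [ok]

theorem ok_inl' (x : Lt a b) (i i' : Fin a) : ok x (.inl i) ↔ ok x (.inl i') := by
  rcases x with i | j <;> simp [ok]

theorem ok_inr' (x : Lt a b) (i i' : Fin b) : ok x (.inr i) ↔ ok x (.inr i') := by
  rcases x with i | j <;> simp [ok]

/-- the shift: moves the root along the letter `u`, whose inverse is `d` -/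
def rho (u d : Lt a b) : List (Lt a b) → List (Lt a b)
  | [] => [u]
  | [x] => if x = d then [] else [x, u]
  | y :: x :: s => y :: rho u d (x :: s)

theorem rho_cc (u d y x : Lt a b) (s : List (Lt a b)) :
    rho u d (y :: x :: s) = y :: rho u d (x :: s) := rfl

theorem rho_head (u d x : Lt a b) (s : List (Lt a b)) :
    (x :: s = [d] ∧ rho u d (x :: s) = []) ∨ ∃ s', rho u d (x :: s) = x :: s' := by
  rcases s with _ | ⟨z, s⟩
  · by_cases h : x = d
    · left; simp [rho, h]
    · right; exact ⟨[u], by simp [rho, h]⟩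
  · right; exact ⟨_, rfl⟩

theorem rho_chain {u d : Lt a b} (hu : ∀ x, ok x u ↔ x ≠ d) :
    ∀ w : List (Lt a b), w.IsChain ok → (rho u d w).IsChain ok
  | [], _ => by simp [rho]
  | [x], _ => by
    by_cases h : x = d
    · simp [rho, h]
    · have := (hu x).2 h
      simp [rho, h, this]
  | y :: x :: s, h => by
    rw [List.isChain_cons_cons] at h
    have ih := rho_chain hu (x :: s) h.2
    rw [rho_cc]
    rcases rho_head u d x s with ⟨_, h2⟩ | ⟨s', h2⟩
    · rw [h2]; simp
    · rw [h2] at ih ⊢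
      rw [List.isChain_cons_cons]
      exact ⟨h.1, ih⟩

theorem rho_inv {u d : Lt a b} (hd : ∀ x, ok x d ↔ x ≠ u) :
    ∀ w : List (Lt a b), w.IsChain ok → rho d u (rho u d w) = w
  | [], _ => by simp [rho]
  | [x], _ => by
    by_cases h : x = d
    · simp [rho, h]
    · simp [rho, h]
  | y :: x :: s, h => by
    rw [List.isChain_cons_cons] at h
    have ih := rho_inv hd (x :: s) h.2
    rw [rho_cc]
    rcases rho_head u d x s with ⟨h1, h2⟩ | ⟨s', h2⟩
    · rw [h2]
      rw [List.cons.injEq] at h1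
      obtain ⟨rfl, rfl⟩ := h1
      have h3 := (hd y).1 h.1
      simp [rho, h3]
    · rw [h2] at ih ⊢
      rw [rho_cc, ih]

theorem rho_adj (u d : Lt a b) (l : Lt a b) (w : List (Lt a b)) :
    (∃ m, rho u d (l :: w) = m :: rho u d w) ∨ (∃ m, rho u d w = m :: rho u d (l :: w)) := by
  rcases w with _ | ⟨z, s⟩
  · by_cases h : l = d
    · right; exact ⟨u, by simp [rho, h]⟩
    · left; exact ⟨l, by simp [rho, h]⟩
  · left; exact ⟨l, rfl⟩

theorem rho_ht {u d : Lt a b} (hud : eps u = - eps d) :
    ∀ w : List (Lt a b), htl (rho u d w) = htl w + eps u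
  | [] => by simp [rho]
  | [x] => by
    by_cases h : x = d
    · simp [rho, h, hud]
    · simp [rho, h]
  | y :: x :: s => by
    rw [rho_cc, htl_cons, rho_ht hud (x :: s), htl_cons (l := y)]
    ring

/-- acting on the first letter written -/
def pm (e : Lt a b → Lt a b) : List (Lt a b) → List (Lt a b)
  | [] => []
  | [x] => [e x]
  | y :: x :: s => y :: pm e (x :: s)

theorem pm_cc (e : Lt a b → Lt a b) (y x : Lt a b) (s : List (Lt a b)) :
    pm e (y :: x :: s) = y :: pm e (x :: s) := rfl

theorem pm_head (e : Lt a b → Lt a b) (x : Lt a b) (s : List (Lt a b)) :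
    ∃ s', pm e (x :: s) = e x :: s' ∨ pm e (x :: s) = x :: s' := by
  rcases s with _ | ⟨z, s⟩
  · exact ⟨[], Or.inl rfl⟩
  · exact ⟨_, Or.inr rfl⟩

theorem pm_chain {e : Lt a b → Lt a b} (he : ∀ x y, ok y (e x) ↔ ok y x) :
    ∀ w : List (Lt a b), w.IsChain ok → (pm e w).IsChain ok
  | [], _ => by simp [pm]
  | [x], _ => by simp [pm]
  | y :: x :: s, h => by
    rw [List.isChain_cons_cons] at h
    have ih := pm_chain he (x :: s) h.2
    rw [pm_cc]
    obtain ⟨s', h2 | h2⟩ := pm_head e x s
    · rw [h2] at ih ⊢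
      rw [List.isChain_cons_cons]
      exact ⟨(he x y).2 h.1, ih⟩
    · rw [h2] at ih ⊢
      rw [List.isChain_cons_cons]
      exact ⟨h.1, ih⟩

theorem pm_inv {e e' : Lt a b → Lt a b} (he : ∀ x, e' (e x) = x) :
    ∀ w : List (Lt a b), pm e' (pm e w) = w
  | [] => by simp [pm]
  | [x] => by simp [pm, he]
  | y :: x :: s => by
    have ih := pm_inv he (x :: s)
    rw [pm_cc]
    obtain ⟨s', h2 | h2⟩ := pm_head e x s
    · rw [h2] at ih ⊢
      rw [pm_cc, ih]
    · rw [h2] at ih ⊢
      rw [pm_cc, ih]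

theorem pm_adj (e : Lt a b → Lt a b) (l : Lt a b) (w : List (Lt a b)) :
    ∃ m, pm e (l :: w) = m :: pm e w := by
  rcases w with _ | ⟨z, s⟩
  · exact ⟨e l, rfl⟩
  · exact ⟨l, rfl⟩

theorem pm_ht {e : Lt a b → Lt a b} (he : ∀ x, eps (e x) = eps x) :
    ∀ w : List (Lt a b), htl (pm e w) = htl w
  | [] => by simp [pm]
  | [x] => by simp [pm, he]
  | y :: x :: s => by
    rw [pm_cc, htl_cons, pm_ht he (x :: s), htl_cons (l := y)]

/-- automorphism from a pair of mutually inverse adjacency preserving maps -/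
def mkIso {V : Type} {G : SimpleGraph V} (f g : V → V) (h1 : ∀ x, g (f x) = x)
    (h2 : ∀ x, f (g x) = x) (hf : ∀ x y, G.Adj x y → G.Adj (f x) (f y))
    (hg : ∀ x y, G.Adj x y → G.Adj (g x) (g y)) : G ≃g G where
  toFun := f
  invFun := g
  left_inv := h1
  right_inv := h2
  map_rel_iff' := by
    intro x y
    constructor
    · intro h
      have := hg _ _ h
      simpa [h1] using this
    · exact hf x y

theorem tree_adj_cons {x y : Vt a b} (l : Lt a b) (h : y.1 = l :: x.1) : (tree a b).Adj x y :=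
  Or.inl ⟨l, h⟩

theorem adj_of_lists {f : List (Lt a b) → List (Lt a b)} (hf : ∀ w, w.IsChain ok → (f w).IsChain ok)
    (hadj : ∀ (l : Lt a b) (w : List (Lt a b)),
      (∃ m, f (l :: w) = m :: f w) ∨ (∃ m, f w = m :: f (l :: w))) (x y : Vt a b)
    (h : (tree a b).Adj x y) :
    (tree a b).Adj (⟨f x.1, hf _ x.2⟩ : Vt a b) (⟨f y.1, hf _ y.2⟩ : Vt a b) := by
  rcases h with ⟨l, h⟩ | ⟨l, h⟩
  · have := hadj l x.1
    rw [← h] at this
    exact this
  · have := hadj l y.1
    rw [← h] at this
    exact this.symm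

/-- the shift automorphism -/
def rhoIso : tree a b ≃g tree a b :=
  mkIso (fun x => ⟨rho (.inl 0) (.inr 0) x.1, rho_chain ok_inl _ x.2⟩)
    (fun x => ⟨rho (.inr 0) (.inl 0) x.1, rho_chain ok_inr _ x.2⟩)
    (fun x => Subtype.ext (rho_inv ok_inr x.1 x.2))
    (fun x => Subtype.ext (rho_inv ok_inl x.1 x.2))
    (adj_of_lists (rho_chain ok_inl) (rho_adj _ _))
    (adj_of_lists (rho_chain ok_inr) (rho_adj _ _))

/-- permuting the first letter -/
def pmIso (e e' : Lt a b → Lt a b) (h1 : ∀ x, e' (e x) = x) (h2 : ∀ x, e (e' x) = x)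
    (he : ∀ x y, ok y (e x) ↔ ok y x) : tree a b ≃g tree a b :=
  mkIso (fun x => ⟨pm e x.1, pm_chain he _ x.2⟩)
    (fun x => ⟨pm e' x.1, pm_chain (fun x y => by rw [← he (e' x) y, h2]) _ x.2⟩)
    (fun x => Subtype.ext (pm_inv h1 x.1))
    (fun x => Subtype.ext (pm_inv h2 x.1))
    (adj_of_lists (pm_chain he) (fun l w => Or.inl (pm_adj e l w)))
    (adj_of_lists (pm_chain (fun x y => by rw [← he (e' x) y, h2]))
      (fun l w => Or.inl (pm_adj e' l w)))

variable (a b) in
/-- the height-difference preserving automorphisms -/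
def Gam : Subgroup (tree a b ≃g tree a b) where
  carrier := {g | ∀ x y, ht (g x) - ht (g y) = ht x - ht y}
  mul_mem' := by
    intro g g' h h' x y
    rw [RelIso.mul_apply, RelIso.mul_apply, h, h']
  one_mem' := by intro x y; rfl
  inv_mem' := by
    intro g h x y
    have := h (g⁻¹ x) (g⁻¹ y)
    rw [RelIso.apply_inv_self, RelIso.apply_inv_self] at this
    exact this.symm

theorem mem_Gam {g : tree a b ≃g tree a b} :
    g ∈ Gam a b ↔ ∀ x y, ht (g x) - ht (g y) = ht x - ht y := Iff.rfl

/-- the root -/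
def root : Vt a b := ⟨[], by simp⟩

/-- the neighbours of the root -/
def nbr (l : Lt a b) : Vt a b := ⟨[l], by simp⟩

theorem rhoIso_mem : (rhoIso : tree a b ≃g tree a b) ∈ Gam a b := by
  intro x y
  change htl (rho _ _ x.1) - htl (rho _ _ y.1) = htl x.1 - htl y.1
  rw [rho_ht (by simp [eps]), rho_ht (by simp [eps])]
  ring

theorem rhoIso_root : (rhoIso : tree a b ≃g tree a b) root = nbr (.inl 0) := rfl

theorem pmIso_mem (e e' : Lt a b → Lt a b) (h1 : ∀ x, e' (e x) = x) (h2 : ∀ x, e (e' x) = x)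
    (he : ∀ x y, ok y (e x) ↔ ok y x) (hh : ∀ x, eps (e x) = eps x) :
    pmIso e e' h1 h2 he ∈ Gam a b := by
  intro x y
  change htl (pm _ x.1) - htl (pm _ y.1) = htl x.1 - htl y.1
  rw [pm_ht hh, pm_ht hh]

theorem ht_nbr (l : Lt a b) : ht (nbr l) = eps l := by simp [ht, nbr]

theorem ht_root : ht (root : Vt a b) = 0 := rfl

theorem adj_root_iff (x : Vt a b) : (tree a b).Adj root x ↔ ∃ l, x = nbr l := by
  constructor
  · rintro (⟨l, h⟩ | ⟨l, h⟩)
    · exact ⟨l, Subtype.ext h⟩
    · simp [root] at h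
  · rintro ⟨l, rfl⟩
    exact Or.inl ⟨l, rfl⟩

/-- swapping two letters of the same type at the root -/
theorem exists_swap (l m : Lt a b) (h : eps l = eps m) :
    ∃ g ∈ Gam a b, g root = root ∧ g (nbr l) = nbr m := by
  classical
  have hty : ∀ x y : Lt a b, eps x = eps y → ∀ z, ok z x ↔ ok z y := by
    rintro (i | i) (j | j) hxy z
    · exact ok_inl' z i j
    · simp [eps] at hxy
    · simp [eps] at hxy
    · exact ok_inr' z i j
  set e : Lt a b → Lt a b := fun x => Equiv.swap l m x with he
  have h1 : ∀ x, e (e x) = x := fun x => Equiv.swap_apply_self _ _ _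
  have h2 : ∀ x, eps (e x) = eps x := by
    intro x
    rw [he]
    simp only [Equiv.swap_apply_def]
    split_ifs with h3 h4
    · rw [h3, h]
    · rw [h4, h]
    · rfl
  refine ⟨pmIso e e h1 h1 (fun x y => hty _ _ (h2 x) y), pmIso_mem _ _ _ _ _ h2, rfl, ?_⟩
  apply Subtype.ext
  change pm e [l] = [m]
  simp [pm, he]

theorem connected : (tree a b).Connected := by
  have h : ∀ (w : List (Lt a b)) (hw : w.IsChain ok), (tree a b).Reachable root ⟨w, hw⟩ := by
    intro w
    induction w with
    | nil => intro hw; exact SimpleGraph.Reachable.refl _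
    | cons l w ih =>
      intro hw
      have hw' : w.IsChain ok := hw.tail
      exact (ih hw').trans (SimpleGraph.Adj.reachable (Or.inl ⟨l, rfl⟩))
  have : Nonempty (Vt a b) := ⟨root⟩
  exact ⟨fun x y => (h x.1 x.2).symm.trans (h y.1 y.2)⟩

/-- transitivity -/
theorem exists_map_root (x : Vt a b) : ∃ g ∈ Gam a b, g root = x := by
  -- neighbours of the root first
  have h1 : ∀ l : Lt a b, ∃ g ∈ Gam a b, g root = nbr l := by
    have hup : ∃ g ∈ Gam a b, g root = nbr (.inl 0) := ⟨rhoIso, rhoIso_mem, rhoIso_root⟩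
    have hdown : ∃ g ∈ Gam a b, g root = nbr (.inr 0) := by
      refine ⟨rhoIso⁻¹, (Gam a b).inv_mem rhoIso_mem, rfl⟩
    intro l
    rcases l with i | j
    · obtain ⟨g, hg, h2⟩ := hup
      obtain ⟨g', hg', h3, h4⟩ := exists_swap (.inl 0) (.inl i : Lt a b) rfl
      refine ⟨g' * g, (Gam a b).mul_mem hg' hg, ?_⟩
      rw [RelIso.mul_apply, h2, h4]
    · obtain ⟨g, hg, h2⟩ := hdown
      obtain ⟨g', hg', h3, h4⟩ := exists_swap (.inr 0) (.inr j : Lt a b) rfl
      refine ⟨g' * g, (Gam a b).mul_mem hg' hg, ?_⟩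
      rw [RelIso.mul_apply, h2, h4]
  have h2 : ∀ (x y : Vt a b), (tree a b).Walk x y → (∃ g ∈ Gam a b, g root = y) →
      ∃ g ∈ Gam a b, g root = x := by
    intro x y q
    induction q with
    | nil => exact fun h => h
    | @cons x z y hxz q ih =>
      intro h
      obtain ⟨g, hg, h2⟩ := ih h
      have h3 : (tree a b).Adj root (g⁻¹ x) := by
        have : (tree a b).Adj (g root) (g (g⁻¹ x)) := by
          rw [h2, RelIso.apply_inv_self]; exact hxz.symm
        exact g.map_rel_iff.1 this
      obtain ⟨l, hl⟩ := (adj_root_iff _).1 h3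
      obtain ⟨g', hg', h4⟩ := h1 l
      refine ⟨g * g', (Gam a b).mul_mem hg hg', ?_⟩
      rw [RelIso.mul_apply, h4, ← hl, RelIso.apply_inv_self]
  obtain ⟨q⟩ := (connected (a := a) (b := b)).preconnected x root
  exact h2 x root q ⟨1, (Gam a b).one_mem, rfl⟩

/-- every neighbour of `g root` is `g (nbr l)` -/
theorem nbhd_map (g : tree a b ≃g tree a b) (y : Vt a b) :
    (tree a b).Adj (g root) y ↔ ∃ l, y = g (nbr l) := by
  constructor
  · intro h
    have h3 : (tree a b).Adj root (g⁻¹ y) := by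
      have : (tree a b).Adj (g root) (g (g⁻¹ y)) := by
        rw [RelIso.apply_inv_self]; exact h
      exact g.map_rel_iff.1 this
    obtain ⟨l, hl⟩ := (adj_root_iff _).1 h3
    exact ⟨l, by rw [← hl, RelIso.apply_inv_self]⟩
  · rintro ⟨l, rfl⟩
    exact g.map_rel_iff.2 ((adj_root_iff _).2 ⟨l, rfl⟩)

theorem nbr_inj {l m : Lt a b} (h : (nbr l : Vt a b) = nbr m) : l = m := by
  have := congrArg Subtype.val h
  simpa [nbr] using this

theorem nhd_finite (x : Vt a b) : ((tree a b).neighborSet x).Finite := by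
  obtain ⟨g, hg, rfl⟩ := exists_map_root x
  refine (Set.finite_range fun l : Lt a b => g (nbr l)).subset ?_
  intro y hy
  obtain ⟨l, rfl⟩ := (nbhd_map g y).1 hy
  exact ⟨l, rfl⟩

open Pool.Agent.R959.Wt

theorem walk_finite {V : Type} {G : SimpleGraph V} (hlf : ∀ v, (G.neighborSet v).Finite) :
    ∀ (n : ℕ) (v : V), {w | ∃ q : G.Walk v w, q.length = n}.Finite
  | 0, v => by
    refine (Set.finite_singleton v).subset ?_
    rintro w ⟨q, hq⟩
    exact (SimpleGraph.Walk.eq_of_length_eq_zero hq).symm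
  | n + 1, v => by
    refine ((hlf v).biUnion fun u _ => walk_finite hlf n u).subset ?_
    rintro w ⟨q, hq⟩
    cases q with
    | nil => simp at hq
    | @cons _ u _ h q =>
      simp only [SimpleGraph.Walk.length_cons, add_left_inj] at hq
      exact Set.mem_biUnion (show u ∈ G.neighborSet v from h) ⟨q, hq⟩

theorem orb_finite {V : Type} {G : SimpleGraph V} {Γ : Subgroup (G ≃g G)} (hconn : G.Connected)
    (hlf : ∀ v, (G.neighborSet v).Finite) (v u : V) : (orb G Γ v u).Finite := by
  obtain ⟨q⟩ := hconn.preconnected v u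
  refine (walk_finite hlf q.length v).subset ?_
  rintro w ⟨γ, _, h1, h2⟩
  exact ⟨(q.map (γ : G →g G)).copy h1 h2, by simp⟩

instance countable_Vt : Countable (Vt a b) := by
  unfold Vt
  infer_instance

theorem orb_root (l : Lt a b) :
    orb (tree a b) (Gam a b) root (nbr l) = nbr '' {m : Lt a b | eps m = eps l} := by
  ext y
  constructor
  · rintro ⟨g, hg, h1, rfl⟩
    have h2 : (tree a b).Adj root (g (nbr l)) := by
      have := g.map_rel_iff.2 ((adj_root_iff _).2 ⟨l, rfl⟩)
      rwa [h1] at this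
    obtain ⟨m, hm⟩ := (adj_root_iff _).1 h2
    refine ⟨m, ?_, hm.symm⟩
    have h3 := hg (nbr l) root
    rw [h1, hm, ht_nbr, ht_nbr] at h3
    simp only [Set.mem_ofPred_eq]
    linarith
  · rintro ⟨m, hm, rfl⟩
    obtain ⟨g, hg, h1, h2⟩ := exists_swap l m (by simpa using hm.symm)
    exact ⟨g, hg, h1, h2⟩

theorem orb_root_ncard_up (i : Fin a) :
    (orb (tree a b) (Gam a b) root (nbr (.inl i))).ncard = a := by
  rw [orb_root, Set.ncard_image_of_injective _ (fun l m h => nbr_inj h)]
  have : {m : Lt a b | eps m = eps (.inl i : Lt a b)} = Set.range (Sum.inl : Fin a → Lt a b) := by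
    ext m
    rcases m with k | k <;> simp [eps]
  rw [this, ← Set.image_univ, Set.ncard_image_of_injective _ Sum.inl_injective, Set.ncard_univ,
    Nat.card_eq_fintype_card, Fintype.card_fin]

theorem orb_root_ncard_down (i : Fin b) :
    (orb (tree a b) (Gam a b) root (nbr (.inr i))).ncard = b := by
  rw [orb_root, Set.ncard_image_of_injective _ (fun l m h => nbr_inj h)]
  have : {m : Lt a b | eps m = eps (.inr i : Lt a b)} = Set.range (Sum.inr : Fin b → Lt a b) := by
    ext m
    rcases m with k | k <;> simp [eps]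
  rw [this, ← Set.image_univ, Set.ncard_image_of_injective _ Sum.inr_injective, Set.ncard_univ,
    Nat.card_eq_fintype_card, Fintype.card_fin]

/-- size of the orbit of a neighbour -/
theorem orb_adj {x y : Vt a b} (h : (tree a b).Adj x y) :
    (ht y = ht x + 1 ∧ (orb (tree a b) (Gam a b) x y).ncard = a) ∨
    (ht y = ht x - 1 ∧ (orb (tree a b) (Gam a b) x y).ncard = b) := by
  obtain ⟨g, hg, rfl⟩ := exists_map_root x
  obtain ⟨l, rfl⟩ := (nbhd_map g y).1 h
  have h1 := hg (nbr l) root
  rw [ht_nbr, ht_root] at h1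
  rw [orb_map hg, Set.ncard_image_of_injective _ g.injective]
  rcases l with i | j
  · left
    refine ⟨?_, orb_root_ncard_up i⟩
    simp only [eps] at h1; linarith
  · right
    refine ⟨?_, orb_root_ncard_down j⟩
    simp only [eps] at h1; linarith

theorem wt_adj {x y : Vt a b} (h : (tree a b).Adj x y) :
    wt (tree a b) (Gam a b) y x = ((b : ℝ) / a) ^ (ht x - ht y) := by
  have ha : (a : ℝ) ≠ 0 := by exact_mod_cast NeZero.ne a
  have hb : (b : ℝ) ≠ 0 := by exact_mod_cast NeZero.ne b
  unfold wt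
  rcases orb_adj h with ⟨h1, h2⟩ | ⟨h1, h2⟩ <;> rcases orb_adj h.symm with ⟨h3, h4⟩ | ⟨h3, h4⟩
  · omega
  · rw [h2, h4, h1]
    have : ht x - (ht x + 1) = -1 := by ring
    rw [this, zpow_neg_one, inv_div]
  · rw [h2, h4, h1]
    have : ht x - (ht x - 1) = 1 := by ring
    rw [this, zpow_one]
  · omega

theorem wt_eq (x y : Vt a b) :
    wt (tree a b) (Gam a b) y x = ((b : ℝ) / a) ^ (ht x - ht y) := by
  have ha : (0 : ℝ) < a := by exact_mod_cast Nat.pos_of_ne_zero (NeZero.ne a)
  have hb : (0 : ℝ) < b := by exact_mod_cast Nat.pos_of_ne_zero (NeZero.ne b)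
  exact wt_of_adj (orb_finite connected nhd_finite) connected _ (by positivity) ht
    (fun x y h => wt_adj h) x y

theorem Gam_closed : @IsClosed _ (pointwiseTop (tree a b)) (Gam a b : Set (tree a b ≃g tree a b)) := by
  letI : TopologicalSpace (Vt a b) := ⊥
  haveI : DiscreteTopology (Vt a b) := ⟨rfl⟩
  letI := pointwiseTop (tree a b)
  have h1 : (Gam a b : Set (tree a b ≃g tree a b)) =
      ⋂ x, ⋂ y, {g | ht (g x) - ht (g y) = ht x - ht y} := by
    ext g
    simp only [Set.mem_iInter]
    rfl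
  rw [h1]
  refine isClosed_iInter fun x => isClosed_iInter fun y => ?_
  have hev : ∀ z : Vt a b, Continuous (fun g : tree a b ≃g tree a b => g z) := by
    intro z
    have : Continuous (fun g : tree a b ≃g tree a b => (fun x => g x : Vt a b → Vt a b)) :=
      continuous_induced_dom
    exact (continuous_apply z).comp this
  have h2 : Continuous (fun g : tree a b ≃g tree a b => ht (g x) - ht (g y)) := by
    have h3 : Continuous (ht : Vt a b → ℤ) := continuous_of_discreteTopology
    exact (h3.comp (hev x)).sub (h3.comp (hev y))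
  exact isClosed_eq h2 continuous_const

end Pool.Agent.R959.HTree
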