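import Pool.Agent.R959.HTree

set_option autoImplicit false
set_option linter.unusedSectionVars false
set_option linter.unusedVariables false

/-! Cheeger constant and heaviness threshold of the oriented tree. -/

namespace Pool.Agent.R959.HTree

open Set MeasureTheory
open Pool.Agent.R959.Wt
open scoped ENNReal

variable {a b : ℕ} [NeZero a] [NeZero b]

theorem exists_bad (x : Vt a b) : ∃ l0 : Lt a b, ∀ l, l ≠ l0 → (l :: x.1).IsChain ok := by
  obtain ⟨w, hw⟩ := x
  rcases w with _ | ⟨z, s⟩
  · exact ⟨.inl 0, fun l _ => by simp⟩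
  · rcases z with i | j
    · refine ⟨.inr 0, fun l hl => ?_⟩
      simp only
      rw [List.isChain_cons_cons]
      exact ⟨(ok_inl' l i 0).2 ((ok_inl l).2 hl), hw⟩
    · refine ⟨.inl 0, fun l hl => ?_⟩
      simp only
      rw [List.isChain_cons_cons]
      exact ⟨(ok_inr' l j 0).2 ((ok_inr l).2 hl), hw⟩

theorem sum_eps (r : ℝ) (hr : 0 < r) : ∑ l : Lt a b, r ^ (eps l) = a * r + b / r := by
  rw [Fintype.sum_sum_type]
  simp [eps, div_eq_mul_inv]

/-- appending a letter -/
noncomputable def app (p : Vt a b × Lt a b) : Vt a b :=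
  open Classical in if h : (p.2 :: p.1.1).IsChain ok then ⟨p.2 :: p.1.1, h⟩ else root

theorem app_of {p : Vt a b × Lt a b} (h : (p.2 :: p.1.1).IsChain ok) :
    (app p).1 = p.2 :: p.1.1 := by
  unfold app
  rw [dif_pos h]

theorem cheeger_fin (hab : a ≤ b) (F B : Finset (Vt a b))
    (hB : ∀ x ∈ F, ∀ y, (tree a b).Adj x y → y ∈ F ∨ y ∈ B) :
    ((a : ℝ) + b - 1 - b / a) * ∑ x ∈ F, ((b : ℝ) / a) ^ (ht x) ≤
      ∑ x ∈ B, ((b : ℝ) / a) ^ (ht x) := by
  classical
  have ha : (0 : ℝ) < a := by exact_mod_cast Nat.pos_of_ne_zero (NeZero.ne a)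
  have hb : (0 : ℝ) < b := by exact_mod_cast Nat.pos_of_ne_zero (NeZero.ne b)
  set r : ℝ := (b : ℝ) / a with hr
  have hr1 : 1 ≤ r := by rw [hr, le_div_iff₀ ha]; simpa using (by exact_mod_cast hab : (a : ℝ) ≤ b)
  have hr0 : 0 < r := by linarith
  set C : Finset (Vt a b × Lt a b) :=
    (F ×ˢ Finset.univ).filter (fun p => (p.2 :: p.1.1).IsChain ok) with hC
  have h1 : ∑ p ∈ C, r ^ (eps p.2) * r ^ (ht p.1) ≤ ∑ x ∈ F ∪ B, r ^ (ht x) := by
    have e1 : ∑ p ∈ C, r ^ (eps p.2) * r ^ (ht p.1) = ∑ x ∈ C.image app, r ^ (ht x) := by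
      rw [Finset.sum_image]
      · refine Finset.sum_congr rfl fun p hp => ?_
        rw [hC, Finset.mem_filter] at hp
        rw [← zpow_add₀ hr0.ne']
        congr 1
        unfold ht
        rw [app_of hp.2, htl_cons]
      · intro p hp q hq h
        simp only [hC, Finset.coe_filter, Set.mem_ofPred_eq] at hp hq
        have h2 := congrArg Subtype.val h
        rw [app_of hp.2, app_of hq.2, List.cons.injEq] at h2
        exact Prod.ext (Subtype.ext h2.2) h2.1
    rw [e1]
    refine Finset.sum_le_sum_of_subset_of_nonneg ?_ (fun x _ _ => by positivity)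
    intro y hy
    rw [Finset.mem_image] at hy
    obtain ⟨p, hp, rfl⟩ := hy
    rw [hC, Finset.mem_filter, Finset.mem_product] at hp
    rw [Finset.mem_union]
    exact hB p.1 hp.1.1 _ (Or.inl ⟨p.2, app_of hp.2⟩)
  have h2 : ((a : ℝ) + b - r) * ∑ x ∈ F, r ^ (ht x) ≤
      ∑ p ∈ C, r ^ (eps p.2) * r ^ (ht p.1) := by
    rw [hC, Finset.sum_filter, Finset.sum_product, Finset.mul_sum]
    refine Finset.sum_le_sum fun x _ => ?_
    obtain ⟨l0, hl0⟩ := exists_bad x
    have e1 : ∑ l ∈ Finset.univ.erase l0, r ^ (eps l) * r ^ (ht x) ≤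
        ∑ l : Lt a b, if ((x, l).2 :: (x, l).1.1).IsChain ok then
          r ^ (eps (x, l).2) * r ^ (ht (x, l).1) else 0 := by
      rw [← Finset.sum_filter]
      refine Finset.sum_le_sum_of_subset_of_nonneg ?_ (fun x _ _ => by positivity)
      intro l hl
      rw [Finset.mem_erase] at hl
      rw [Finset.mem_filter]
      exact ⟨Finset.mem_univ _, hl0 l hl.1⟩
    refine le_trans ?_ e1
    rw [← Finset.sum_mul]
    refine mul_le_mul_of_nonneg_right ?_ (by positivity)
    have e2 : r ^ (eps l0) + ∑ l ∈ Finset.univ.erase l0, r ^ (eps l) = a * r + b / r :=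
      (Finset.add_sum_erase Finset.univ (fun l => r ^ (eps l)) (Finset.mem_univ l0)).trans
        (sum_eps r hr0)
    have e3 : r ^ (eps l0) ≤ r := by
      have : r ^ (eps l0) ≤ r ^ (1 : ℤ) := by
        refine zpow_le_zpow_right₀ hr1 ?_
        rcases l0 with i | j <;> simp [eps]
      simpa using this
    have e4 : a * r + b / r = a + b := by
      rw [hr]; field_simp; ring
    linarith
  have h3 : ∑ x ∈ F ∪ B, r ^ (ht x) ≤ ∑ x ∈ F, r ^ (ht x) + ∑ x ∈ B, r ^ (ht x) := by
    rw [← Finset.sum_union_inter]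
    have : 0 ≤ ∑ x ∈ F ∩ B, r ^ (ht x) := Finset.sum_nonneg fun x _ => by positivity
    linarith
  have h4 : ((a : ℝ) + b - 1 - r) * ∑ x ∈ F, r ^ (ht x) =
      ((a : ℝ) + b - r) * ∑ x ∈ F, r ^ (ht x) - ∑ x ∈ F, r ^ (ht x) := by ring
  rw [h4]
  linarith

theorem wset_toReal (o : Vt a b) (F : Set (Vt a b)) (hF : F.Finite) :
    (wset (tree a b) (Gam a b) o F).toReal =
      ((b : ℝ) / a) ^ (- ht o) * ∑ x ∈ hF.toFinset, ((b : ℝ) / a) ^ (ht x) := by
  have ha : (0 : ℝ) < a := by exact_mod_cast Nat.pos_of_ne_zero (NeZero.ne a)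
  have hb : (0 : ℝ) < b := by exact_mod_cast Nat.pos_of_ne_zero (NeZero.ne b)
  have hr0 : 0 < (b : ℝ) / a := by positivity
  unfold wset
  have h1 : ∑' x : F, ENNReal.ofReal (wt (tree a b) (Gam a b) o x) =
      ∑ x ∈ hF.toFinset, ENNReal.ofReal (wt (tree a b) (Gam a b) o x) := by
    rw [← Finset.tsum_subtype' hF.toFinset (fun x => ENNReal.ofReal (wt (tree a b) (Gam a b) o x)),
      hF.coe_toFinset]
  rw [h1, ENNReal.toReal_sum (fun _ _ => ENNReal.ofReal_ne_top), Finset.mul_sum]
  refine Finset.sum_congr rfl fun x _ => ?_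
  rw [wt_eq, ENNReal.toReal_ofReal (by positivity), ← zpow_add₀ hr0.ne']
  congr 1; ring

theorem cheeger_ge (hab : a ≤ b) (o : Vt a b) :
    (a : ℝ) + b - 1 - b / a ≤ cheeger (tree a b) (Gam a b) o := by
  have ha : (0 : ℝ) < a := by exact_mod_cast Nat.pos_of_ne_zero (NeZero.ne a)
  have hb : (0 : ℝ) < b := by exact_mod_cast Nat.pos_of_ne_zero (NeZero.ne b)
  have hr0 : 0 < (b : ℝ) / a := by positivity
  unfold cheeger
  refine le_csInf ⟨_, {o}, Set.finite_singleton o, Set.singleton_nonempty o, rfl⟩ ?_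
  rintro x ⟨F, hF, hne, rfl⟩
  have hbf : (bdry (tree a b) F).Finite := by
    refine (hF.biUnion fun x _ => nhd_finite x).subset ?_
    rintro y ⟨_, x, hx, hxy⟩
    exact Set.mem_biUnion hx hxy
  rw [wset_toReal o F hF, wset_toReal o _ hbf]
  have hpos : 0 < ∑ x ∈ hF.toFinset, ((b : ℝ) / a) ^ (ht x) := by
    refine Finset.sum_pos (fun x _ => by positivity) ?_
    obtain ⟨z, hz⟩ := hne
    exact ⟨z, by simpa using hz⟩
  rw [mul_div_mul_left _ _ (by positivity), le_div_iff₀ hpos]
  refine cheeger_fin hab _ _ ?_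
  intro x hx y hxy
  by_cases hy : y ∈ F
  · left; simpa using hy
  · right
    rw [Set.Finite.mem_toFinset]
    exact ⟨hy, x, by simpa using hx, hxy⟩

theorem sum_nbr_le (c : ℝ) (hc : 0 < c) (x : Vt a b) :
    ∑' y : (tree a b).neighborSet x, ENNReal.ofReal (c ^ (ht (y : Vt a b))) ≤
      ENNReal.ofReal (a * c + b / c) * ENNReal.ofReal (c ^ (ht x)) := by
  obtain ⟨g, hg, rfl⟩ := exists_map_root x
  choose l hl using fun y : (tree a b).neighborSet (g root) => (nbhd_map g y.1).1 y.2
  calc ∑' y : (tree a b).neighborSet (g root), ENNReal.ofReal (c ^ (ht (y : Vt a b)))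
      = ∑' y : (tree a b).neighborSet (g root),
          (fun m : Lt a b => ENNReal.ofReal (c ^ (ht (g (nbr m))))) (l y) := by
        refine tsum_congr fun y => ?_
        simp only
        rw [← hl y]
    _ ≤ ∑' m : Lt a b, ENNReal.ofReal (c ^ (ht (g (nbr m)))) := by
        refine ENNReal.tsum_comp_le_tsum_of_injective ?_
          (fun m : Lt a b => ENNReal.ofReal (c ^ (ht (g (nbr m)))))
        intro y z h
        apply Subtype.ext
        rw [hl y, hl z, h]
    _ = ∑ m : Lt a b, ENNReal.ofReal (c ^ (eps m) * c ^ (ht (g root))) := by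
        rw [tsum_fintype]
        refine Finset.sum_congr rfl fun m _ => ?_
        rw [← zpow_add₀ hc.ne']
        congr 2
        have := hg (nbr m) root
        rw [ht_nbr, ht_root] at this
        linarith
    _ = _ := by
        rw [← ENNReal.ofReal_sum_of_nonneg (fun m _ => by positivity), ← Finset.sum_mul,
          sum_eps c hc, ENNReal.ofReal_mul (by positivity)]

/-- vertices at height `n` -/
def up (n : ℕ) : Vt a b := ⟨List.replicate n (.inl 0), by
  induction n with
  | zero => simp
  | succ n ih =>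
    rcases n with _ | n
    · simp
    · rw [List.replicate_succ, List.replicate_succ, List.isChain_cons_cons]
      exact ⟨trivial, by rw [← List.replicate_succ]; exact ih⟩⟩

theorem ht_up (n : ℕ) : ht (up n : Vt a b) = n := by
  unfold ht up htl
  simp [eps]

theorem up_inj : Function.Injective (up : ℕ → Vt a b) := by
  intro n m h
  have := congrArg ht h
  rw [ht_up, ht_up] at this
  exact_mod_cast this

theorem wset_univ (hab : a ≤ b) (o : Vt a b) :
    wset (tree a b) (Gam a b) o Set.univ = ⊤ := by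
  have ha : (0 : ℝ) < a := by exact_mod_cast Nat.pos_of_ne_zero (NeZero.ne a)
  have hb : (0 : ℝ) < b := by exact_mod_cast Nat.pos_of_ne_zero (NeZero.ne b)
  have hr0 : 0 < (b : ℝ) / a := by positivity
  have hr1 : 1 ≤ (b : ℝ) / a := by
    rw [le_div_iff₀ ha]; simpa using (by exact_mod_cast hab : (a : ℝ) ≤ b)
  unfold wset
  rw [← top_le_iff]
  calc (⊤ : ℝ≥0∞) = ∑' n : ℕ, ENNReal.ofReal (((b : ℝ) / a) ^ (- ht o)) := by
        rw [ENNReal.tsum_const_eq_top_of_ne_zero]
        simp only [ne_eq, ENNReal.ofReal_eq_zero, not_le]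
        positivity
    _ ≤ ∑' n : ℕ, (fun x : (Set.univ : Set (Vt a b)) =>
          ENNReal.ofReal (wt (tree a b) (Gam a b) o x)) ⟨up n, Set.mem_univ _⟩ := by
        refine ENNReal.tsum_le_tsum fun n => ?_
        simp only
        rw [wt_eq, ht_up]
        refine ENNReal.ofReal_le_ofReal ?_
        refine zpow_le_zpow_right₀ hr1 ?_
        have : (0 : ℤ) ≤ n := by positivity
        linarith
    _ ≤ _ := by
        refine ENNReal.tsum_comp_le_tsum_of_injective ?_ (fun x : (Set.univ : Set (Vt a b)) =>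
          ENNReal.ofReal (wt (tree a b) (Gam a b) o x))
        intro n m h
        exact up_inj (congrArg Subtype.val h)

theorem ph_ge (hab : a ≤ b) (c : ℝ) (hc : 0 < c) (hc2 : c ^ 2 = (b : ℝ) / a) (o : Vt a b) :
    1 / (a * c + b / c) ≤ ph (tree a b) (Gam a b) o := by
  have ha : (0 : ℝ) < a := by exact_mod_cast Nat.pos_of_ne_zero (NeZero.ne a)
  have hb : (0 : ℝ) < b := by exact_mod_cast Nat.pos_of_ne_zero (NeZero.ne b)
  unfold ph
  refine le_csInf ⟨1, 1, rfl, ?_⟩ ?_
  · have h1 : ∀ᵐ ω ∂(perc (tree a b) 1), ∀ e, ω e = true := by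
      rw [ae_all_iff]
      intro e
      have h2 := Measure.infinitePi_map_eval (fun _ : (tree a b).edgeSet => bern 1) e
      have h3 : ∀ᵐ z ∂(bern 1), z = true := by
        rw [ae_iff]
        have : {z : Bool | ¬ z = true} = {false} := by ext z; simp
        rw [this]
        simp [bern]
      rw [← h2] at h3
      exact ae_of_ae_map (measurable_pi_apply e).aemeasurable h3
    have h4 : ∀ᵐ ω ∂(perc (tree a b) 1),
        ∃ v, wset (tree a b) (Gam a b) o (cluster (tree a b) ω v) = ⊤ := by
      filter_upwards [h1] with ω hω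
      refine ⟨o, ?_⟩
      have h5 : cluster (tree a b) ω o = Set.univ := by
        ext y
        simp only [Set.mem_univ, iff_true]
        have h6 : tree a b ≤ openGraph (tree a b) ω := by
          intro x y hxy
          exact ⟨by simpa using hxy, hω _⟩
        exact ((connected (a := a) (b := b)).preconnected o y).mono h6
      rw [h5]
      exact wset_univ hab o
    by_contra h7
    rw [not_lt, nonpos_iff_eq_zero] at h7
    rw [ae_iff] at h4
    have h8 : perc (tree a b) 1 Set.univ ≤ 0 := by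
      calc perc (tree a b) 1 Set.univ ≤
          perc (tree a b) 1 ({ω | ∃ v, wset (tree a b) (Gam a b) o (cluster (tree a b) ω v) = ⊤} ∪
            {ω | ¬ ∃ v, wset (tree a b) (Gam a b) o (cluster (tree a b) ω v) = ⊤}) := by
            refine measure_mono ?_
            intro ω _
            exact em _
        _ ≤ _ := measure_union_le _ _
        _ = 0 := by rw [h7, h4, add_zero]
    rw [measure_univ] at h8
    simp at h8
  · rintro x ⟨p, rfl, hp⟩
    by_contra hlt
    rw [not_le] at hlt
    have hM : 0 < (a * c + b / c : ℝ) := by positivity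
    have hpM : ENNReal.ofReal (p : ℝ) * ENNReal.ofReal (a * c + b / c) < 1 := by
      rw [← ENNReal.ofReal_mul p.2.1, ENNReal.ofReal_lt_one]
      rwa [lt_div_iff₀ hM] at hlt
    have hlight := cluster_light (G := tree a b) p (fun x => ENNReal.ofReal (c ^ (ht x)))
      (fun x => ENNReal.ofReal_ne_top) _ (sum_nbr_le c hc) hpM
    have h0 : ∀ᵐ ω ∂(perc (tree a b) p),
        ¬ ∃ v, wset (tree a b) (Gam a b) o (cluster (tree a b) ω v) = ⊤ := by
      filter_upwards [hlight] with ω hω
      rintro ⟨v, hv⟩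
      have h1 := hω v
      set S := ∑' y : cluster (tree a b) ω v, ENNReal.ofReal (c ^ (ht (y : Vt a b))) with hS
      have h2 : wset (tree a b) (Gam a b) o (cluster (tree a b) ω v) ≤
          ENNReal.ofReal (((b : ℝ) / a) ^ (- ht o)) * (S * S) := by
        unfold wset
        calc ∑' y : cluster (tree a b) ω v, ENNReal.ofReal (wt (tree a b) (Gam a b) o y)
            ≤ ∑' y : cluster (tree a b) ω v, ENNReal.ofReal (((b : ℝ) / a) ^ (- ht o)) *
              (S * ENNReal.ofReal (c ^ (ht (y : Vt a b)))) := by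
              refine ENNReal.tsum_le_tsum fun y => ?_
              have e1 : ENNReal.ofReal (c ^ (ht (y : Vt a b))) ≤ S := ENNReal.le_tsum y
              have e2 : wt (tree a b) (Gam a b) o y =
                  ((b : ℝ) / a) ^ (- ht o) * (c ^ (ht (y : Vt a b)) * c ^ (ht (y : Vt a b))) := by
                rw [wt_eq, ← hc2, ← zpow_natCast, ← zpow_mul, ← zpow_mul, ← zpow_add₀ hc.ne',
                  ← zpow_add₀ hc.ne']
                congr 1
                push_cast
                ring
              rw [e2, ENNReal.ofReal_mul (by positivity), ENNReal.ofReal_mul (by positivity)]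
              gcongr
          _ = _ := by rw [ENNReal.tsum_mul_left, ENNReal.tsum_mul_left]
      rw [hv, top_le_iff] at h2
      exact (ENNReal.mul_ne_top ENNReal.ofReal_ne_top (ENNReal.mul_ne_top h1.ne h1.ne)) h2
    rw [ae_iff] at h0
    simp only [not_not] at h0
    rw [h0] at hp
    exact lt_irrefl _ hp

end Pool.Agent.R959.HTree
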