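import Mathlib

set_option autoImplicit false
set_option linter.unusedSectionVars false
set_option linter.unusedVariables false

/-! The bidirectional lattice `k`-neighbour graph on `ℤ^d`: definitions and the probability of
prescribed choices. -/

namespace Pool.Agent.R959.KN

open MeasureTheory Set Finset
open scoped ENNReal

/-- A direction: a coordinate together with a sign; the `2d` directions index the `2d` nearest
neighbours of a vertex. -/
abbrev Dir (d : ℕ) := Fin d × Bool

/-- The unit vector of a direction. -/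
def stp {d : ℕ} (v : Dir d) : Fin d → ℤ := Pi.single v.1 (if v.2 then 1 else -1)

/-- The opposite direction. -/
def rev {d : ℕ} (v : Dir d) : Dir d := (v.1, !v.2)

/-- The joint law of the choices: every vertex of `ℤ^d` chooses, independently, a uniformly random
set of `k` directions. -/
noncomputable def law (d k : ℕ) : Measure ((Fin d → ℤ) → Finset (Dir d)) :=
  Measure.infinitePi fun _ =>
    ProbabilityTheory.uniformOn (Finset.powersetCard k (Finset.univ : Finset (Dir d)) :
      Set (Finset (Dir d)))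

/-- The bidirectional `k`-neighbour graph: `x` and `y` are joined when `y = x + v` for a direction
`v` chosen by `x` whose opposite is chosen by `y`. -/
def graph {d : ℕ} (ω : (Fin d → ℤ) → Finset (Dir d)) : SimpleGraph (Fin d → ℤ) where
  Adj x y := ∃ v, y = x + stp v ∧ v ∈ ω x ∧ rev v ∈ ω y
  symm := ⟨by
    rintro x y ⟨v, h1, h2, h3⟩
    refine ⟨rev v, ?_, h3, ?_⟩
    · rw [h1]
      funext i
      rcases v with ⟨a, b⟩
      cases b <;> by_cases h : i = a <;> simp [stp, rev, Pi.single_apply, h]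
    · rcases v with ⟨a, b⟩
      simpa [rev] using h2⟩
  loopless := ⟨by
    rintro x ⟨v, h1, _⟩
    have h2 := congrFun h1 v.1
    rcases v with ⟨a, b⟩
    cases b <;> simp [stp] at h2⟩

/-- `θ(k,d)`: the probability that the component of the origin is infinite. -/
noncomputable def theta (k d : ℕ) : ℝ≥0∞ :=
  law d k {ω | {y | (graph ω).Reachable 0 y}.Infinite}

/-- `k_c(d)`: the least `k` for which the graph percolates. -/
noncomputable def kc (d : ℕ) : ℕ := sInf {k : ℕ | 1 ≤ k ∧ k ≤ 2 * d ∧ 0 < theta k d}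

/-- falling factorial ratio -/
noncomputable def phi (d k j : ℕ) : ℝ := ∏ i ∈ range j, ((k : ℝ) - i) / ((2 * d : ℝ) - i)

theorem card_dir (d : ℕ) : (Finset.univ : Finset (Dir d)).card = 2 * d := by
  simp [mul_comm]

instance law_prob (d k : ℕ) [h : Fact (k ≤ 2 * d)] : IsProbabilityMeasure
    (ProbabilityTheory.uniformOn (Finset.powersetCard k (Finset.univ : Finset (Dir d)) :
      Set (Finset (Dir d)))) := by
  refine ProbabilityTheory.isProbabilityMeasure_uniformOn (Finset.finite_toSet _) ?_
  rw [Finset.coe_nonempty, Finset.powersetCard_nonempty, card_dir]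
  exact h.out

instance (d k : ℕ) [h : Fact (k ≤ 2 * d)] : IsProbabilityMeasure (law d k) := by
  unfold law; infer_instance

theorem count_sup {α : Type} [Fintype α] [DecidableEq α] (k : ℕ) (R : Finset α)
    (hR : R.card ≤ k) :
    ((Finset.powersetCard k (Finset.univ : Finset α)).filter (fun S => R ⊆ S)).card =
      (Fintype.card α - R.card).choose (k - R.card) := by
  have h1 : (Fintype.card α - R.card) = (Finset.univ \ R : Finset α).card := by
    rw [Finset.card_sdiff_of_subset (Finset.subset_univ _), Finset.card_univ]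
  rw [h1, ← Finset.card_powersetCard]
  refine Finset.card_bij' (fun S _ => S \ R) (fun T _ => T ∪ R) ?_ ?_ ?_ ?_
  · intro S hS
    rw [Finset.mem_filter, Finset.mem_powersetCard] at hS
    rw [Finset.mem_powersetCard]
    exact ⟨Finset.sdiff_subset_sdiff (Finset.subset_univ _) le_rfl,
      by rw [Finset.card_sdiff_of_subset hS.2, hS.1.2]⟩
  · intro T hT
    rw [Finset.mem_powersetCard] at hT
    rw [Finset.mem_filter, Finset.mem_powersetCard]
    have hdisj : Disjoint T R := by
      rw [Finset.disjoint_left]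
      intro x hx hxR
      have := hT.1 hx
      simp [hxR] at this
    refine ⟨⟨Finset.subset_univ _, ?_⟩, Finset.subset_union_right⟩
    rw [Finset.card_union_of_disjoint hdisj, hT.2]
    omega
  · intro S hS
    rw [Finset.mem_filter] at hS
    exact Finset.sdiff_union_of_subset hS.2
  · intro T hT
    rw [Finset.mem_powersetCard] at hT
    ext x
    simp only [Finset.mem_sdiff, Finset.mem_union]
    constructor
    · rintro ⟨h | h, h2⟩
      · exact h
      · exact absurd h h2
    · intro h
      have := hT.1 h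
      simp only [Finset.mem_sdiff] at this
      exact ⟨Or.inl h, this.2⟩

theorem phi_succ (d k j : ℕ) : phi d k (j + 1) = phi d k j * (((k : ℝ) - j) / ((2 * d : ℝ) - j)) := by
  unfold phi; rw [Finset.prod_range_succ]

theorem choose_phi (d k : ℕ) (hk : k ≤ 2 * d) : ∀ j : ℕ, j ≤ k →
    (((2 * d - j).choose (k - j) : ℕ) : ℝ) = phi d k j * (((2 * d).choose k : ℕ) : ℝ)
  | 0, _ => by simp [phi]
  | j + 1, hj => by
    have ih := choose_phi d k hk j (by omega)
    obtain ⟨n, hn⟩ : ∃ n, 2 * d - j = n + 1 := ⟨2 * d - j - 1, by omega⟩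
    obtain ⟨m, hm⟩ : ∃ m, k - j = m + 1 := ⟨k - j - 1, by omega⟩
    have h1 : 2 * d - (j + 1) = n := by omega
    have h2 : k - (j + 1) = m := by omega
    rw [h1, h2, phi_succ]
    rw [hn, hm] at ih
    have h3 := Nat.add_one_mul_choose_eq n m
    have h4 : ((2 * d : ℝ) - j) = ((n + 1 : ℕ) : ℝ) := by
      rw [← hn, Nat.cast_sub (by omega)]; push_cast; ring
    have h5 : ((k : ℝ) - j) = ((m + 1 : ℕ) : ℝ) := by
      rw [← hm, Nat.cast_sub (by omega)]
    rw [h4, h5]
    have h6 : (((n + 1 : ℕ) : ℝ)) * ((n.choose m : ℕ) : ℝ) =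
        (((n + 1).choose (m + 1) : ℕ) : ℝ) * ((m + 1 : ℕ) : ℝ) := by exact_mod_cast h3
    have h7 : (((n + 1 : ℕ) : ℝ)) ≠ 0 := by positivity
    field_simp
    rw [ih] at h6
    linarith

theorem unif_sup (d k : ℕ) (hk : k ≤ 2 * d) (R : Finset (Dir d)) (hR : R.card ≤ k) :
    (ProbabilityTheory.uniformOn (Finset.powersetCard k (Finset.univ : Finset (Dir d)) :
      Set (Finset (Dir d))) {S | R ⊆ S}).toReal = phi d k R.card := by
  classical
  have h1 : {S : Finset (Dir d) | R ⊆ S} =
      (((Finset.univ : Finset (Finset (Dir d))).filter (fun S => R ⊆ S)) : Set (Finset (Dir d))) := by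
    ext S; simp
  rw [h1, ProbabilityTheory.uniformOn_apply_finset]
  have h2 : Finset.powersetCard k (Finset.univ : Finset (Dir d)) ∩
      (Finset.univ : Finset (Finset (Dir d))).filter (fun S => R ⊆ S) =
      (Finset.powersetCard k (Finset.univ : Finset (Dir d))).filter (fun S => R ⊆ S) := by
    ext S; simp
  rw [h2, count_sup k R hR, Finset.card_powersetCard, card_dir, Fintype.card_prod, Fintype.card_fin,
    Fintype.card_bool, mul_comm d 2, ENNReal.toReal_div, ENNReal.toReal_natCast,
    ENNReal.toReal_natCast, choose_phi d k hk _ hR]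
  have h3 : (((2 * d).choose k : ℕ) : ℝ) ≠ 0 := by
    exact_mod_cast (Nat.choose_pos hk).ne'
  field_simp

/-- ratio of consecutive values of `phi` -/
noncomputable def rr (d k i : ℕ) : ℝ := ((k : ℝ) - i) / ((2 * d : ℝ) - i)

theorem rr_anti {d k : ℕ} (hk : k ≤ 2 * d) {i j : ℕ} (hij : i ≤ j) (hj : j < 2 * d) :
    rr d k j ≤ rr d k i := by
  unfold rr
  have h1 : (0 : ℝ) < (2 * d : ℝ) - j := by
    have : (j : ℝ) < ((2 * d : ℕ) : ℝ) := by exact_mod_cast hj
    push_cast at this; linarith
  have h2 : (i : ℝ) ≤ j := by exact_mod_cast hij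
  have h3 : (k : ℝ) ≤ 2 * d := by exact_mod_cast hk
  rw [div_le_div_iff₀ h1 (by linarith)]
  nlinarith

theorem rr_nonneg {d k : ℕ} {i : ℕ} (hi : i ≤ k) (hj : k ≤ 2 * d) : 0 ≤ rr d k i := by
  unfold rr
  have h2 : (i : ℝ) ≤ k := by exact_mod_cast hi
  have h3 : (k : ℝ) ≤ 2 * d := by exact_mod_cast hj
  exact div_nonneg (by linarith) (by linarith)

theorem phi_le (d k : ℕ) (hk4 : 4 ≤ k) (hk : k ≤ 2 * d) (a b c : ℕ) (ha : a ≤ 2) (hb : b ≤ 2)
    (hca : c ≤ a) (hcb : c ≤ b) :
    phi d k (a + b - c) ≤ phi d k a * phi d k b * ((rr d k 1)⁻¹) ^ c := by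
  have r0 : 0 ≤ rr d k 0 := rr_nonneg (by omega) hk
  have r2 : 0 ≤ rr d k 2 := rr_nonneg (by omega) hk
  have r3 : 0 ≤ rr d k 3 := rr_nonneg (by omega) hk
  have h01 : rr d k 1 ≤ rr d k 0 := rr_anti hk (by omega) (by omega)
  have h12 : rr d k 2 ≤ rr d k 1 := rr_anti hk (by omega) (by omega)
  have h23 : rr d k 3 ≤ rr d k 2 := rr_anti hk (by omega) (by omega)
  have r1 : 0 < rr d k 1 := by
    unfold rr
    have h2 : (4 : ℝ) ≤ k := by exact_mod_cast hk4
    have h3 : (k : ℝ) ≤ 2 * d := by exact_mod_cast hk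
    push_cast
    exact div_pos (by linarith) (by linarith)
  have p0 : phi d k 0 = 1 := by simp [phi]
  have p1 : phi d k 1 = rr d k 0 := by rw [phi_succ, p0, one_mul]; rfl
  have p2 : phi d k 2 = rr d k 0 * rr d k 1 := by rw [phi_succ, p1]; rfl
  have p3 : phi d k 3 = rr d k 0 * rr d k 1 * rr d k 2 := by rw [phi_succ, p2]; rfl
  have p4 : phi d k 4 = rr d k 0 * rr d k 1 * rr d k 2 * rr d k 3 := by rw [phi_succ, p3]; rfl
  have hs : (rr d k 1)⁻¹ * rr d k 1 = 1 := inv_mul_cancel₀ r1.ne'
  set s := (rr d k 1)⁻¹ with hsdef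
  have hs0 : 0 < s := inv_pos.2 r1
  set x0 := rr d k 0
  set x1 := rr d k 1
  set x2 := rr d k 2
  set x3 := rr d k 3
  have hs1 : 1 ≤ x0 * s := by nlinarith
  have q : 0 ≤ x0 * x1 := mul_nonneg r0 r1.le
  interval_cases a <;> interval_cases b <;> interval_cases c <;>
    simp only [Nat.add_zero, Nat.zero_add, Nat.sub_zero, Nat.reduceAdd, Nat.reduceSub, pow_zero,
      pow_one, p0, p1, p2, p3, p4, mul_one, one_mul] <;> try exact le_rfl
  all_goals first
    | exact mul_le_mul_of_nonneg_left h01 r0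
    | nlinarith [mul_le_mul_of_nonneg_left hs1 r0, mul_le_mul_of_nonneg_left hs1 q,
        mul_nonneg q r2, mul_nonneg q r3, mul_le_mul_of_nonneg_left h12 q,
        mul_le_mul_of_nonneg_left (h12.trans h01) q]

end Pool.Agent.R959.KN
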