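import Pool.Agent.R959.KN1

set_option autoImplicit false
set_option linter.unusedSectionVars false
set_option linter.unusedVariables false

/-! Probability of prescribed half-edges. -/

namespace Pool.Agent.R959.KN

open MeasureTheory Set Finset
open scoped ENNReal

abbrev Pt (d : ℕ) := Fin d → ℤ

variable {d k : ℕ}

/-- all the half-edges in `H` are chosen -/
def ev (H : Finset (Pt d × Dir d)) : Set (Pt d → Finset (Dir d)) := {ω | ∀ h ∈ H, h.2 ∈ ω h.1}

/-- directions required at `x` -/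
def fib (H : Finset (Pt d × Dir d)) (x : Pt d) : Finset (Dir d) :=
  (H.filter (fun h => h.1 = x)).image Prod.snd

theorem mem_fib {H : Finset (Pt d × Dir d)} {x : Pt d} {v : Dir d} : v ∈ fib H x ↔ (x, v) ∈ H := by
  unfold fib
  simp only [Finset.mem_image, Finset.mem_filter]
  constructor
  · rintro ⟨e, ⟨h1, h2⟩, h3⟩
    rw [← h2, ← h3]; exact h1
  · intro h
    exact ⟨(x, v), ⟨h, rfl⟩, rfl⟩

theorem fib_card_sum (H : Finset (Pt d × Dir d)) (X : Finset (Pt d)) (hX : ∀ h ∈ H, h.1 ∈ X) :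
    ∑ x ∈ X, (fib H x).card = H.card := by
  rw [Finset.card_eq_sum_card_fiberwise (f := Prod.fst) (t := X) (fun h hh => hX h hh)]
  refine Finset.sum_congr rfl fun x _ => ?_
  unfold fib
  rw [Finset.card_image_of_injOn]
  intro a ha b hb h
  simp only [Finset.coe_filter, Set.mem_ofPred_eq] at ha hb
  exact Prod.ext (ha.2.trans hb.2.symm) h

theorem ev_eq (H : Finset (Pt d × Dir d)) (X : Finset (Pt d)) (hX : ∀ h ∈ H, h.1 ∈ X) :
    ev H = Set.pi (X : Set (Pt d)) (fun x => {S | fib H x ⊆ S}) := by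
  ext ω
  simp only [ev, Set.mem_ofPred_eq, Set.mem_pi, Finset.mem_coe]
  constructor
  · intro h x _ v hv
    exact h _ (mem_fib.1 hv)
  · intro h e he
    exact h e.1 (hX e he) (mem_fib.2 he)

theorem ev_meas (H : Finset (Pt d × Dir d)) : MeasurableSet (ev H) := by
  rw [ev_eq H (H.image Prod.fst) (fun h hh => Finset.mem_image_of_mem _ hh)]
  refine MeasurableSet.pi (Finset.countable_toSet _) fun x _ => ?_
  exact (Set.toFinite _).measurableSet

theorem ev_prob (hk : k ≤ 2 * d) (H : Finset (Pt d × Dir d)) (X : Finset (Pt d))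
    (hX : ∀ h ∈ H, h.1 ∈ X) (hc : ∀ x, (fib H x).card ≤ k) :
    (law d k (ev H)).toReal = ∏ x ∈ X, phi d k (fib H x).card := by
  have : Fact (k ≤ 2 * d) := ⟨hk⟩
  rw [ev_eq H X hX, law, Measure.infinitePi_pi _ (fun x _ => (Set.toFinite _).measurableSet),
    ENNReal.toReal_prod]
  refine Finset.prod_congr rfl fun x _ => ?_
  exact unif_sup d k hk _ (hc x)

theorem ev_union (H H' : Finset (Pt d × Dir d)) : ev (H ∪ H') = ev H ∩ ev H' := by
  ext ω
  simp only [ev, Finset.mem_union, Set.mem_ofPred_eq, Set.mem_inter_iff]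
  constructor
  · intro h; exact ⟨fun e he => h e (Or.inl he), fun e he => h e (Or.inr he)⟩
  · rintro ⟨h1, h2⟩ e (he | he)
    · exact h1 e he
    · exact h2 e he

theorem fib_union (H H' : Finset (Pt d × Dir d)) (x : Pt d) :
    fib (H ∪ H') x = fib H x ∪ fib H' x := by
  ext v; simp [mem_fib]

theorem fib_inter (H H' : Finset (Pt d × Dir d)) (x : Pt d) :
    fib (H ∩ H') x = fib H x ∩ fib H' x := by
  ext v; simp [mem_fib]

theorem phi_pos (hk : k ≤ 2 * d) : ∀ j, j ≤ k → 0 < phi d k j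
  | 0, _ => by simp [phi]
  | j + 1, hj => by
    rw [phi_succ]
    have h1 : (j : ℝ) < k := by exact_mod_cast hj
    have h2 : (k : ℝ) ≤ 2 * d := by exact_mod_cast hk
    exact mul_pos (phi_pos hk j (by omega)) (div_pos (by linarith) (by linarith))

theorem ev_pos (hk : k ≤ 2 * d) (H : Finset (Pt d × Dir d)) (hc : ∀ x, (fib H x).card ≤ k) :
    0 < (law d k (ev H)).toReal := by
  rw [ev_prob hk H (H.image Prod.fst) (fun h hh => Finset.mem_image_of_mem _ hh) hc]
  exact Finset.prod_pos fun x _ => phi_pos hk _ (hc x)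

theorem pair_le (hk4 : 4 ≤ k) (hk : k ≤ 2 * d) (H H' : Finset (Pt d × Dir d))
    (h2 : ∀ x, (fib H x).card ≤ 2) (h2' : ∀ x, (fib H' x).card ≤ 2) :
    (law d k (ev H ∩ ev H')).toReal ≤
      (law d k (ev H)).toReal * (law d k (ev H')).toReal * ((rr d k 1)⁻¹) ^ (H ∩ H').card := by
  set X : Finset (Pt d) := (H ∪ H').image Prod.fst with hXdef
  have hX : ∀ h ∈ H ∪ H', h.1 ∈ X := fun h hh => Finset.mem_image_of_mem _ hh
  have hcu : ∀ x, (fib (H ∪ H') x).card ≤ k := by
    intro x
    rw [fib_union]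
    have := Finset.card_union_le (fib H x) (fib H' x)
    have := h2 x
    have := h2' x
    omega
  rw [← ev_union, ev_prob hk _ X hX hcu,
    ev_prob hk H X (fun h hh => hX h (Finset.mem_union_left _ hh)) (fun x => (h2 x).trans (by omega)),
    ev_prob hk H' X (fun h hh => hX h (Finset.mem_union_right _ hh)) (fun x => (h2' x).trans (by omega)),
    ← fib_card_sum (H ∩ H') X (fun h hh => hX h (Finset.mem_union_left _ (Finset.mem_inter.1 hh).1)),
    ← Finset.prod_pow_eq_pow_sum, ← Finset.prod_mul_distrib, ← Finset.prod_mul_distrib]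
  refine Finset.prod_le_prod (fun x _ => (phi_pos hk _ (hcu x)).le) fun x _ => ?_
  have hcard : (fib (H ∪ H') x).card =
      (fib H x).card + (fib H' x).card - (fib (H ∩ H') x).card := by
    rw [fib_union, fib_inter]
    have := Finset.card_union_add_card_inter (fib H x) (fib H' x)
    omega
  rw [hcard]
  refine phi_le d k hk4 hk _ _ _ (h2 x) (h2' x) ?_ ?_
  · rw [fib_inter]; exact Finset.card_le_card Finset.inter_subset_left
  · rw [fib_inter]; exact Finset.card_le_card Finset.inter_subset_right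

/-- second moment inequality for a finite family of events -/
theorem second_moment {Ω : Type} [MeasurableSpace Ω] (μ : Measure Ω) [IsProbabilityMeasure μ]
    {ι : Type} (s : Finset ι) (hs : s.Nonempty) (A : ι → Set Ω) (hA : ∀ i ∈ s, MeasurableSet (A i))
    (hpos : ∀ i ∈ s, 0 < (μ (A i)).toReal) (K : ℝ)
    (hK : ∑ i ∈ s, ∑ j ∈ s, (μ (A i ∩ A j)).toReal / ((μ (A i)).toReal * (μ (A j)).toReal) ≤
      K * (s.card : ℝ) ^ 2) (hK0 : 0 < K) :
    1 / K ≤ (μ (⋃ i ∈ s, A i)).toReal := by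
  set U : Set Ω := ⋃ i ∈ s, A i with hU
  have hUm : MeasurableSet U := by
    rw [hU]; exact Finset.measurableSet_biUnion s hA
  set W : Ω → ℝ := fun ω => ∑ i ∈ s, (A i).indicator (fun _ => ((μ (A i)).toReal)⁻¹) ω with hW
  have hint : ∀ i ∈ s, Integrable ((A i).indicator (fun _ => ((μ (A i)).toReal)⁻¹)) μ :=
    fun i hi => (integrable_const _).indicator (hA i hi)
  have hWi : Integrable W μ := integrable_finsetSum _ hint
  have hUi : Integrable (U.indicator (fun _ => (1 : ℝ))) μ := (integrable_const _).indicator hUm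
  have e1 : ∫ ω, W ω ∂μ = s.card := by
    rw [hW, integral_finsetSum _ hint]
    have : ∀ i ∈ s, ∫ ω, (A i).indicator (fun _ => ((μ (A i)).toReal)⁻¹) ω ∂μ = 1 := by
      intro i hi
      rw [integral_indicator (hA i hi), setIntegral_const, smul_eq_mul]
      exact mul_inv_cancel₀ (hpos i hi).ne'
    rw [Finset.sum_congr rfl this]; simp
  have hW2 : ∀ ω, W ω * W ω = ∑ i ∈ s, ∑ j ∈ s,
      (A i ∩ A j).indicator (fun _ => ((μ (A i)).toReal)⁻¹ * ((μ (A j)).toReal)⁻¹) ω := by
    intro ω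
    rw [hW, Finset.sum_mul_sum]
    refine Finset.sum_congr rfl fun i _ => Finset.sum_congr rfl fun j _ => ?_
    by_cases h1 : ω ∈ A i <;> by_cases h2 : ω ∈ A j <;> simp [h1, h2]
  have hint2 : ∀ i ∈ s, ∀ j ∈ s, Integrable ((A i ∩ A j).indicator
      (fun _ => ((μ (A i)).toReal)⁻¹ * ((μ (A j)).toReal)⁻¹)) μ :=
    fun i hi j hj => (integrable_const _).indicator ((hA i hi).inter (hA j hj))
  have hWWi : Integrable (fun ω => W ω * W ω) μ := by
    rw [show (fun ω => W ω * W ω) = fun ω => ∑ i ∈ s, ∑ j ∈ s,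
      (A i ∩ A j).indicator (fun _ => ((μ (A i)).toReal)⁻¹ * ((μ (A j)).toReal)⁻¹) ω from
        funext hW2]
    exact integrable_finsetSum _ fun i hi => integrable_finsetSum _ fun j hj => hint2 i hi j hj
  have e2 : ∫ ω, W ω * W ω ∂μ ≤ K * (s.card : ℝ) ^ 2 := by
    rw [show (fun ω => W ω * W ω) = fun ω => ∑ i ∈ s, ∑ j ∈ s,
      (A i ∩ A j).indicator (fun _ => ((μ (A i)).toReal)⁻¹ * ((μ (A j)).toReal)⁻¹) ω from
        funext hW2]
    rw [integral_finsetSum _ (fun i hi => integrable_finsetSum _ fun j hj => hint2 i hi j hj)]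
    refine le_trans (le_of_eq ?_) hK
    refine Finset.sum_congr rfl fun i hi => ?_
    rw [integral_finsetSum _ (fun j hj => hint2 i hi j hj)]
    refine Finset.sum_congr rfl fun j hj => ?_
    rw [integral_indicator ((hA i hi).inter (hA j hj)), setIntegral_const, smul_eq_mul,
      div_eq_mul_inv, mul_inv]
    rfl
  have hn : (0 : ℝ) < s.card := by exact_mod_cast hs.card_pos
  set t : ℝ := 1 / (K * s.card) with ht
  have ht0 : 0 < t := by positivity
  have e3 : 0 ≤ ∫ ω, (U.indicator (fun _ => (1 : ℝ)) ω - t * W ω) ^ 2 ∂μ :=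
    integral_nonneg fun ω => sq_nonneg _
  have e4 : ∀ ω, (U.indicator (fun _ => (1 : ℝ)) ω - t * W ω) ^ 2 =
      U.indicator (fun _ => (1 : ℝ)) ω - 2 * t * W ω + t ^ 2 * (W ω * W ω) := by
    intro ω
    by_cases h : ω ∈ U
    · simp only [Set.indicator_of_mem h]; ring
    · have hW0 : W ω = 0 := by
        rw [hW]
        refine Finset.sum_eq_zero fun i hi => ?_
        have : ω ∉ A i := fun h2 => h (Set.mem_biUnion (by exact_mod_cast hi) h2)
        simp [this]
      simp only [Set.indicator_of_notMem h, hW0]; ring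
  have e5 : ∫ ω, (U.indicator (fun _ => (1 : ℝ)) ω - t * W ω) ^ 2 ∂μ =
      (μ U).toReal - 2 * t * s.card + t ^ 2 * ∫ ω, W ω * W ω ∂μ := by
    rw [integral_congr_ae (Filter.Eventually.of_forall e4)]
    have f1 : Integrable (fun ω => U.indicator (fun _ => (1 : ℝ)) ω - 2 * t * W ω) μ :=
      hUi.sub (hWi.const_mul _)
    rw [integral_add f1 (hWWi.const_mul _),
      integral_sub hUi (hWi.const_mul _), integral_const_mul, integral_const_mul, e1,
      integral_indicator hUm, setIntegral_const, smul_eq_mul, mul_one]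
    rfl
  have e6 : t ^ 2 * ∫ ω, W ω * W ω ∂μ ≤ t ^ 2 * (K * (s.card : ℝ) ^ 2) :=
    mul_le_mul_of_nonneg_left e2 (by positivity)
  have e7 : 2 * t * s.card - t ^ 2 * (K * (s.card : ℝ) ^ 2) = 1 / K := by
    rw [ht]; field_simp; ring
  rw [e5] at e3
  linarith

end Pool.Agent.R959.KN
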