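import Pool.Agent.R959.KN2

set_option autoImplicit false
set_option linter.unusedSectionVars false
set_option linter.unusedVariables false

/-! Collision estimates for scheduled oriented walks. -/

namespace Pool.Agent.R959.KN

open MeasureTheory Set Finset

/-- integer-indexed binomial coefficient -/
def ch (N : ℕ) (z : ℤ) : ℕ := if 0 ≤ z then N.choose z.toNat else 0

theorem ch_succ (N : ℕ) (z : ℤ) : ch (N + 1) z = ch N z + ch N (z - 1) := by
  unfold ch
  by_cases h0 : 0 ≤ z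
  · obtain ⟨n, rfl⟩ := Int.eq_ofNat_of_zero_le h0
    rcases n with _ | n
    · simp
    · have h1 : (0 : ℤ) ≤ ((n + 1 : ℕ) : ℤ) - 1 := by push_cast; omega
      have h2 : (((n + 1 : ℕ) : ℤ) - 1).toNat = n := by push_cast; omega
      rw [if_pos h0, if_pos h0, if_pos h1, h2, Int.toNat_natCast, Nat.choose_succ_succ, add_comm]
  · rw [if_neg h0, if_neg h0, if_neg (by omega)]

/-- probability that two binomial counters differing by `y` agree after `n` steps each -/
noncomputable def rw' : ℕ → ℤ → ℝ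
  | 0, y => if y = 0 then 1 else 0
  | n + 1, y => (rw' n (y - 1) + 2 * rw' n y + rw' n (y + 1)) / 4

theorem rw'_eq : ∀ (n : ℕ) (y : ℤ), rw' n y = (ch (2 * n) (n + y) : ℝ) / 4 ^ n
  | 0, y => by
    unfold rw' ch
    by_cases h : y = 0
    · simp [h]
    · by_cases h2 : 0 ≤ y
      · have h3 : y.toNat ≠ 0 := by omega
        obtain ⟨k, hk⟩ := Nat.exists_eq_succ_of_ne_zero h3
        simp [h, h2, hk]
      · simp [h, h2]
  | n + 1, y => by
    rw [rw', rw'_eq n, rw'_eq n, rw'_eq n]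
    have h1 : ch (2 * (n + 1)) (((n + 1 : ℕ) : ℤ) + y) =
        ch (2 * n) (n + (y - 1)) + 2 * ch (2 * n) (n + y) + ch (2 * n) (n + (y + 1)) := by
      rw [show 2 * (n + 1) = (2 * n + 1) + 1 by ring, ch_succ, ch_succ, ch_succ]
      have e1 : (((n + 1 : ℕ) : ℤ) + y) = (n : ℤ) + (y + 1) := by push_cast; ring
      have e2 : (n : ℤ) + (y + 1) - 1 = n + y := by ring
      have e3 : (n : ℤ) + y - 1 = n + (y - 1) := by ring
      rw [e1, e2, e3]
      ring
    rw [h1, pow_succ]
    push_cast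
    ring

theorem rw'_nonneg (n : ℕ) (y : ℤ) : 0 ≤ rw' n y := by
  rw [rw'_eq]; positivity

/-- central return probability -/
noncomputable def rho (n : ℕ) : ℝ := (n.centralBinom : ℝ) / 4 ^ n

theorem rw'_le (n : ℕ) (y : ℤ) : rw' n y ≤ rho n := by
  rw [rw'_eq, rho]
  refine div_le_div_of_nonneg_right ?_ (by positivity)
  unfold ch
  split_ifs
  · exact_mod_cast Nat.choose_le_centralBinom _ _
  · exact_mod_cast Nat.zero_le _

theorem rho_nonneg (n : ℕ) : 0 ≤ rho n := by unfold rho; positivity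

theorem rho_succ (n : ℕ) : rho (n + 1) = rho n * ((2 * n + 1) / (2 * n + 2)) := by
  unfold rho
  have h := Nat.succ_mul_centralBinom_succ n
  have h2 : ((n + 1 : ℕ) : ℝ) * ((n + 1).centralBinom : ℝ) = 2 * (2 * n + 1) * (n.centralBinom : ℝ) := by
    exact_mod_cast h
  have h3 : (0 : ℝ) < (n : ℝ) + 1 := by positivity
  rw [pow_succ]
  have h4 : ((n + 1).centralBinom : ℝ) = 2 * (2 * n + 1) * (n.centralBinom : ℝ) / (n + 1) := by
    rw [eq_div_iff h3.ne']; push_cast at h2; linarith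
  rw [h4]
  field_simp
  ring

theorem rho_sq (n : ℕ) : rho n ^ 2 ≤ 1 / (2 * n + 1) := by
  induction n with
  | zero => simp [rho]
  | succ n ih =>
    rw [rho_succ, mul_pow]
    have h1 : rho n ^ 2 * ((2 * n + 1) / (2 * n + 2) : ℝ) ^ 2 ≤
        1 / (2 * n + 1) * ((2 * n + 1) / (2 * n + 2) : ℝ) ^ 2 :=
      mul_le_mul_of_nonneg_right ih (by positivity)
    refine h1.trans ?_
    push_cast
    rw [div_pow, div_mul_div_comm, div_le_div_iff₀ (by positivity) (by positivity)]
    have : (0 : ℝ) ≤ n := by positivity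
    nlinarith [mul_nonneg this this, mul_nonneg this (mul_nonneg this this)]

theorem rho_anti {n m : ℕ} (h : n ≤ m) : rho m ≤ rho n := by
  induction m, h using Nat.le_induction with
  | base => exact le_rfl
  | succ m _ ih =>
    refine le_trans ?_ ih
    rw [rho_succ]
    refine mul_le_of_le_one_right (rho_nonneg m) ?_
    rw [div_le_one (by positivity)]
    linarith

/-- number of times in `[i, i+t)` congruent to `b` mod 4 -/
def cnt (b : Fin 4) : ℕ → ℕ → ℕ
  | _, 0 => 0
  | i, t + 1 => (if i % 4 = b.val then 1 else 0) + cnt b (i + 1) t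

theorem cnt_add_four (b : Fin 4) : ∀ (t i : ℕ), cnt b (i + 4) t = cnt b i t
  | 0, _ => rfl
  | t + 1, i => by
    rw [cnt, cnt, show i + 4 + 1 = (i + 1) + 4 by ring, cnt_add_four b t (i + 1),
      Nat.add_mod_right]

theorem cnt_four (b : Fin 4) (t i : ℕ) : cnt b i (t + 4) = cnt b i t + 1 := by
  have h : cnt b i (t + 4) = (if i % 4 = b.val then 1 else 0) +
      ((if (i + 1) % 4 = b.val then 1 else 0) + ((if (i + 1 + 1) % 4 = b.val then 1 else 0) +
      ((if (i + 1 + 1 + 1) % 4 = b.val then 1 else 0) + cnt b (i + 4) t))) := rfl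
  rw [h, cnt_add_four]
  have hb := b.isLt
  split_ifs <;> omega

theorem le_cnt (b : Fin 4) (i : ℕ) : ∀ t, t / 4 ≤ cnt b i t
  | 0 => by simp
  | 1 => by simp
  | 2 => by simp
  | 3 => by simp
  | t + 4 => by
    have := le_cnt b i t
    rw [cnt_four]
    omega

theorem sum_g (n : ℕ) :
    (∑ t ∈ range n, (1 : ℝ) / (2 * ((t / 4 : ℕ) : ℝ) + 1) ^ 2) ≤ (5 : ℝ) := by
  have h1 : ∀ N : ℕ, ∑ t ∈ range (4 * N), (1 : ℝ) / (2 * ((t / 4 : ℕ) : ℝ) + 1) ^ 2 =
      4 * ∑ j ∈ range N, (1 : ℝ) / (2 * (j : ℝ) + 1) ^ 2 := by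
    intro N
    induction N with
    | zero => simp
    | succ N ih =>
      rw [show 4 * (N + 1) = 4 * N + 1 + 1 + 1 + 1 by ring, Finset.sum_range_succ,
        Finset.sum_range_succ, Finset.sum_range_succ, Finset.sum_range_succ, ih,
        Finset.sum_range_succ]
      have a0 : (4 * N) / 4 = N := by omega
      have a1 : (4 * N + 1) / 4 = N := by omega
      have a2 : (4 * N + 1 + 1) / 4 = N := by omega
      have a3 : (4 * N + 1 + 1 + 1) / 4 = N := by omega
      rw [a0, a1, a2, a3]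
      ring
  have h2 : ∀ N : ℕ, ∑ j ∈ range (N + 1), (1 : ℝ) / (2 * (j : ℝ) + 1) ^ 2 ≤
      5 / 4 - 1 / (4 * ((N : ℝ) + 1)) := by
    intro N
    induction N with
    | zero => norm_num
    | succ N ih =>
      rw [Finset.sum_range_succ]
      push_cast at ih ⊢
      have hN : (0 : ℝ) ≤ N := by positivity
      have h3 : (1 : ℝ) / (2 * ((N : ℝ) + 1) + 1) ^ 2 ≤
          1 / (4 * ((N : ℝ) + 1)) - 1 / (4 * ((N : ℝ) + 1 + 1)) := by
        rw [div_sub_div _ _ (by positivity) (by positivity), div_le_div_iff₀ (by positivity)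
          (by positivity)]
        nlinarith
      linarith
  calc ∑ t ∈ range n, (1 : ℝ) / (2 * ((t / 4 : ℕ) : ℝ) + 1) ^ 2
      ≤ ∑ t ∈ range (4 * (n + 1)), (1 : ℝ) / (2 * ((t / 4 : ℕ) : ℝ) + 1) ^ 2 := by
        refine Finset.sum_le_sum_of_subset_of_nonneg ?_ (fun _ _ _ => by positivity)
        intro t ht
        rw [Finset.mem_range] at ht ⊢
        omega
    _ = 4 * ∑ j ∈ range (n + 1), (1 : ℝ) / (2 * (j : ℝ) + 1) ^ 2 := h1 _
    _ ≤ 4 * (5 / 4 - 1 / (4 * ((n : ℝ) + 1))) := by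
        refine mul_le_mul_of_nonneg_left (h2 n) (by norm_num)
    _ ≤ 5 := by
        have : (0 : ℝ) < 1 / (4 * ((n : ℝ) + 1)) := by positivity
        linarith

section walk
variable {d m : ℕ} (ι : Fin 4 × Bool × Fin m ↪ Fin d)

/-- the letters of the schedule -/
abbrev Al (m : ℕ) := Bool × Fin m

/-- the direction used at time `i` with letter `a` -/
def dr (i : ℕ) (a : Al m) : Dir d := (ι (⟨i % 4, Nat.mod_lt _ (by norm_num)⟩, a), true)

/-- new difference -/
def nd (i : ℕ) (D : Pt d) (a a' : Al m) : Pt d := D + stp (dr ι i a) - stp (dr ι i a')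

theorem nd_self (i : ℕ) (D : Pt d) (a : Al m) : nd ι i D a a = D := by
  unfold nd; rw [add_sub_cancel_right]

/-- number of pairs of schedules of length `t` bringing the difference `D` to `0` -/
noncomputable def pp : ℕ → ℕ → Pt d → ℝ
  | 0, _, D => open Classical in if D = 0 then 1 else 0
  | t + 1, i, D => ∑ a : Al m, ∑ a' : Al m, pp t (i + 1) (nd ι i D a a')

/-- weighted count of pairs of schedules -/
noncomputable def FF (s : ℝ) : ℕ → ℕ → Pt d → ℝ
  | 0, _, _ => 1
  | n + 1, i, D => ∑ a : Al m, ∑ a' : Al m,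
      (open Classical in if D = 0 ∧ a = a' then s ^ 2 else 1) * FF s n (i + 1) (nd ι i D a a')

theorem FF_nonneg (s : ℝ) : ∀ (n i : ℕ) (D : Pt d), 0 ≤ FF ι s n i D
  | 0, _, _ => by simp [FF]
  | n + 1, i, D => by
    rw [FF]
    refine Finset.sum_nonneg fun a _ => Finset.sum_nonneg fun a' _ => ?_
    refine mul_nonneg ?_ (FF_nonneg s n _ _)
    split_ifs
    · positivity
    · norm_num

theorem pp_nonneg : ∀ (t i : ℕ) (D : Pt d), 0 ≤ pp ι t i D
  | 0, _, D => by
    rw [pp]; split_ifs <;> norm_num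
  | t + 1, i, D => by
    rw [pp]
    exact Finset.sum_nonneg fun a _ => Finset.sum_nonneg fun a' _ => pp_nonneg t _ _

theorem card_Al : (Fintype.card (Al m) : ℝ) = 2 * m := by
  simp

theorem FF_le (s : ℝ) : ∀ (n i : ℕ) (D : Pt d), FF ι s n i D ≤ (2 * (m : ℝ)) ^ (2 * n) +
    ∑ t ∈ range n, pp ι t i D * (2 * m * s ^ 2) * FF ι s (n - 1 - t) (i + t + 1) 0
  | 0, i, D => by simp [FF]
  | n + 1, i, D => by
    classical
    rw [Finset.sum_range_succ', FF]
    have h1 : ∀ a a' : Al m, (if D = 0 ∧ a = a' then s ^ 2 else 1) * FF ι s n (i + 1) (nd ι i D a a') ≤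
        FF ι s n (i + 1) (nd ι i D a a') +
          (if D = 0 ∧ a = a' then s ^ 2 * FF ι s n (i + 1) 0 else 0) := by
      intro a a'
      split_ifs with h
      · obtain ⟨rfl, rfl⟩ := h
        rw [nd_self]
        have := FF_nonneg ι s n (i + 1) 0
        linarith
      · simp
    have h2 : ∑ a : Al m, ∑ a' : Al m, (if D = 0 ∧ a = a' then s ^ 2 * FF ι s n (i + 1) 0 else 0) =
        pp ι 0 i D * (2 * m * s ^ 2) * FF ι s (n + 1 - 1 - 0) (i + 0 + 1) 0 := by
      rw [pp]
      by_cases hD : D = 0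
      · simp only [hD, true_and, if_true, Finset.sum_ite_eq, Finset.mem_univ, Finset.sum_const,
          Finset.card_univ, nsmul_eq_mul, card_Al]
        simp only [Nat.add_sub_cancel, Nat.sub_zero, Nat.add_zero]
        ring
      · simp [hD]
    have h3 : ∑ a : Al m, ∑ a' : Al m, FF ι s n (i + 1) (nd ι i D a a') ≤
        (2 * (m : ℝ)) ^ (2 * (n + 1)) +
        ∑ t ∈ range n, pp ι (t + 1) i D * (2 * m * s ^ 2) *
          FF ι s (n + 1 - 1 - (t + 1)) (i + (t + 1) + 1) 0 := by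
      have h4 : ∀ a a' : Al m, FF ι s n (i + 1) (nd ι i D a a') ≤ (2 * (m : ℝ)) ^ (2 * n) +
          ∑ t ∈ range n, pp ι t (i + 1) (nd ι i D a a') * (2 * m * s ^ 2) *
            FF ι s (n - 1 - t) (i + 1 + t + 1) 0 := fun a a' => FF_le s n (i + 1) _
      refine (Finset.sum_le_sum fun a _ => Finset.sum_le_sum fun a' _ => h4 a a').trans ?_
      simp only [Finset.sum_add_distrib, Finset.sum_const, Finset.card_univ, nsmul_eq_mul, card_Al]
      have h5 : 2 * (m : ℝ) * (2 * m * (2 * m) ^ (2 * n)) = (2 * (m : ℝ)) ^ (2 * (n + 1)) := by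
        rw [show 2 * (n + 1) = 2 * n + 1 + 1 by ring, pow_succ, pow_succ]; ring
      rw [h5]
      refine add_le_add le_rfl (le_of_eq ?_)
      have h6 : ∀ t ∈ range n, pp ι (t + 1) i D * (2 * m * s ^ 2) *
          FF ι s (n + 1 - 1 - (t + 1)) (i + (t + 1) + 1) 0 =
          ∑ a : Al m, ∑ a' : Al m, pp ι t (i + 1) (nd ι i D a a') * (2 * m * s ^ 2) *
            FF ι s (n - 1 - t) (i + 1 + t + 1) 0 := by
        intro t ht
        rw [pp, Finset.sum_mul, Finset.sum_mul]
        refine Finset.sum_congr rfl fun a _ => ?_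
        rw [Finset.sum_mul, Finset.sum_mul]
        refine Finset.sum_congr rfl fun a' _ => ?_
        have e1 : n + 1 - 1 - (t + 1) = n - 1 - t := by omega
        have e2 : i + (t + 1) + 1 = i + 1 + t + 1 := by ring
        rw [e1, e2]
      rw [Finset.sum_congr rfl h6]
      rw [Finset.sum_comm]
      simp only [Finset.sum_comm (s := range n)]
      rw [Finset.sum_comm]
    calc _ ≤ ∑ a : Al m, ∑ a' : Al m, (FF ι s n (i + 1) (nd ι i D a a') +
          (if D = 0 ∧ a = a' then s ^ 2 * FF ι s n (i + 1) 0 else 0)) :=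
          Finset.sum_le_sum fun a _ => Finset.sum_le_sum fun a' _ => h1 a a'
      _ = ∑ a : Al m, ∑ a' : Al m, FF ι s n (i + 1) (nd ι i D a a') +
          ∑ a : Al m, ∑ a' : Al m,
            (if D = 0 ∧ a = a' then s ^ 2 * FF ι s n (i + 1) 0 else 0) := by
          simp only [Finset.sum_add_distrib]
      _ ≤ _ := by
          rw [h2]
          linarith

/-- the block functional -/
def yy (D : Pt d) (b : Fin 4) : ℤ := ∑ c : Fin m, D (ι (b, true, c))

theorem yy_nd (i : ℕ) (D : Pt d) (a a' : Al m) (b : Fin 4) :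
    yy ι (nd ι i D a a') b = yy ι D b +
      (if i % 4 = b.val then ((if a.1 then 1 else 0) - (if a'.1 then 1 else 0)) else 0) := by
  have h1 : ∀ a : Al m, ∑ c : Fin m, stp (dr ι i a) (ι (b, true, c)) =
      (if i % 4 = b.val then (if a.1 then 1 else 0) else 0) := by
    intro a
    have h2 : ∀ c : Fin m, stp (dr ι i a) (ι (b, true, c)) =
        if (i % 4 = b.val ∧ a.1 = true) ∧ c = a.2 then 1 else 0 := by
      intro c
      unfold stp dr
      simp only [if_true, Pi.single_apply, EmbeddingLike.apply_eq_iff_eq, Prod.ext_iff, Fin.ext_iff]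
      congr 1
      simp only [eq_iff_iff]
      constructor
      · rintro ⟨h1, h2, h3⟩; exact ⟨⟨h1.symm, h2.symm⟩, h3⟩
      · rintro ⟨⟨h1, h2⟩, h3⟩; exact ⟨h1.symm, h2.symm, h3⟩
    simp only [h2]
    by_cases h3 : i % 4 = b.val <;> by_cases h4 : a.1 = true <;> simp [h3, h4]
  unfold yy nd
  simp only [Pi.add_apply, Pi.sub_apply, Finset.sum_add_distrib, Finset.sum_sub_distrib, h1]
  split_ifs <;> ring

theorem pp_le : ∀ (t i : ℕ) (D : Pt d), pp ι t i D ≤
    (2 * (m : ℝ)) ^ (2 * t) * ∏ b : Fin 4, rw' (cnt b i t) (yy ι D b)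
  | 0, i, D => by
    rw [pp]
    split_ifs with h
    · subst h
      simp [cnt, rw', yy]
    · refine mul_nonneg (by positivity) (Finset.prod_nonneg fun b _ => rw'_nonneg _ _)
  | t + 1, i, D => by
    rw [pp]
    set b0 : Fin 4 := ⟨i % 4, Nat.mod_lt _ (by norm_num)⟩ with hb0
    have hb0v : i % 4 = b0.val := rfl
    have h1 : ∀ a a' : Al m, pp ι t (i + 1) (nd ι i D a a') ≤ (2 * (m : ℝ)) ^ (2 * t) *
        (rw' (cnt b0 (i + 1) t) (yy ι D b0 + ((if a.1 then 1 else 0) - (if a'.1 then 1 else 0))) *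
          ∏ b ∈ Finset.univ.erase b0, rw' (cnt b i (t + 1)) (yy ι D b)) := by
      intro a a'
      refine (pp_le t (i + 1) _).trans (le_of_eq ?_)
      congr 1
      rw [← Finset.mul_prod_erase Finset.univ _ (Finset.mem_univ b0)]
      congr 1
      · rw [yy_nd, if_pos hb0v]
      · refine Finset.prod_congr rfl fun b hb => ?_
        rw [Finset.mem_erase] at hb
        have h2 : ¬ (i % 4 = b.val) := by
          intro h; exact hb.1 (Fin.ext (by rw [← h]))
        rw [yy_nd, if_neg h2, add_zero, cnt, if_neg h2, zero_add]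
    refine (Finset.sum_le_sum fun a _ => Finset.sum_le_sum fun a' _ => h1 a a').trans (le_of_eq ?_)
    rw [← Finset.mul_prod_erase Finset.univ (fun b => rw' (cnt b i (t + 1)) (yy ι D b))
      (Finset.mem_univ b0)]
    have h3 : cnt b0 i (t + 1) = cnt b0 (i + 1) t + 1 := by
      rw [cnt, if_pos hb0v, add_comm]
    rw [h3]
    simp only [Fintype.sum_prod_type, Fintype.sum_bool, Finset.sum_const, Finset.card_univ,
      Fintype.card_fin, nsmul_eq_mul, if_true, Bool.false_eq_true, if_false]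
    rw [show rw' (cnt b0 (i + 1) t + 1) (yy ι D b0) = (rw' (cnt b0 (i + 1) t) (yy ι D b0 - 1) +
      2 * rw' (cnt b0 (i + 1) t) (yy ι D b0) + rw' (cnt b0 (i + 1) t) (yy ι D b0 + 1)) / 4 from rfl]
    rw [show 2 * (t + 1) = 2 * t + 1 + 1 by ring, pow_succ, pow_succ]
    have e1 : yy ι D b0 + ((1 : ℤ) - 1) = yy ι D b0 := by ring
    have e2 : yy ι D b0 + ((1 : ℤ) - 0) = yy ι D b0 + 1 := by ring
    have e3 : yy ι D b0 + ((0 : ℤ) - 1) = yy ι D b0 - 1 := by ring
    have e4 : yy ι D b0 + ((0 : ℤ) - 0) = yy ι D b0 := by ring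
    rw [e1, e2, e3, e4]
    ring

theorem pp_zero_le (t i : ℕ) : pp ι t i 0 ≤
    (2 * (m : ℝ)) ^ (2 * t) * (1 / (2 * ((t / 4 : ℕ) : ℝ) + 1) ^ 2) := by
  refine (pp_le ι t i 0).trans ?_
  refine mul_le_mul_of_nonneg_left ?_ (by positivity)
  calc ∏ b : Fin 4, rw' (cnt b i t) (yy ι 0 b) ≤ ∏ b : Fin 4, rho (t / 4) := by
        refine Finset.prod_le_prod (fun b _ => rw'_nonneg _ _) fun b _ => ?_
        exact (rw'_le _ _).trans (rho_anti (le_cnt b i t))
    _ = (rho (t / 4) ^ 2) ^ 2 := by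
        rw [Finset.prod_const, Finset.card_univ, Fintype.card_fin]; ring
    _ ≤ (1 / (2 * ((t / 4 : ℕ) : ℝ) + 1)) ^ 2 := by
        refine pow_le_pow_left₀ (by positivity) (rho_sq _) 2
    _ = _ := by rw [div_pow, one_pow]

theorem FF_bound (s : ℝ) (hm : 0 < m) (hs : 10 * s ^ 2 ≤ 2 * m) : ∀ (n i : ℕ),
    FF ι s n i 0 ≤ 2 * (2 * (m : ℝ)) ^ (2 * n) := by
  intro n
  induction n using Nat.strong_induction_on with
  | _ n ih =>
    intro i
    have hm' : (0 : ℝ) < m := by exact_mod_cast hm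
    refine (FF_le ι s n i 0).trans ?_
    have h1 : ∑ t ∈ range n, pp ι t i 0 * (2 * m * s ^ 2) * FF ι s (n - 1 - t) (i + t + 1) 0 ≤
        ∑ t ∈ range n, (2 * (m : ℝ)) ^ (2 * n) * (2 * s ^ 2 / (2 * m)) *
          (1 / (2 * ((t / 4 : ℕ) : ℝ) + 1) ^ 2) := by
      refine Finset.sum_le_sum fun t ht => ?_
      rw [Finset.mem_range] at ht
      have h2 := pp_zero_le ι t i
      have h3 := ih (n - 1 - t) (by omega) (i + t + 1)
      have h4 := FF_nonneg ι s (n - 1 - t) (i + t + 1) 0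
      have h5 := pp_nonneg ι t i 0
      calc pp ι t i 0 * (2 * m * s ^ 2) * FF ι s (n - 1 - t) (i + t + 1) 0
          ≤ ((2 * (m : ℝ)) ^ (2 * t) * (1 / (2 * ((t / 4 : ℕ) : ℝ) + 1) ^ 2)) * (2 * m * s ^ 2) *
            (2 * (2 * (m : ℝ)) ^ (2 * (n - 1 - t))) := by
            refine mul_le_mul ?_ h3 h4 (by positivity)
            exact mul_le_mul_of_nonneg_right h2 (by positivity)
        _ = _ := by
            have h6 : (2 * (m : ℝ)) ^ (2 * n) =
                (2 * (m : ℝ)) ^ (2 * t) * (2 * (m : ℝ)) ^ (2 * (n - 1 - t)) * (2 * m) ^ 2 := by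
              rw [← pow_add, ← pow_add]
              congr 1
              omega
            rw [h6]
            field_simp
    have h7 : ∑ t ∈ range n, (2 * (m : ℝ)) ^ (2 * n) * (2 * s ^ 2 / (2 * m)) *
          (1 / (2 * ((t / 4 : ℕ) : ℝ) + 1) ^ 2) ≤ (2 * (m : ℝ)) ^ (2 * n) * (2 * s ^ 2 / (2 * m)) * 5 := by
      rw [← Finset.mul_sum]
      exact mul_le_mul_of_nonneg_left (sum_g n) (by positivity)
    have h8 : 2 * s ^ 2 / (2 * m) * 5 ≤ 1 := by
      rw [div_mul_eq_mul_div, div_le_one (by positivity)]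
      linarith
    have h9 : (2 * (m : ℝ)) ^ (2 * n) * (2 * s ^ 2 / (2 * m)) * 5 ≤ (2 * (m : ℝ)) ^ (2 * n) := by
      rw [mul_assoc]
      exact mul_le_of_le_one_right (by positivity) h8
    linarith

end walk

end Pool.Agent.R959.KN
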