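import Pool.Agent.R959.KN3

set_option autoImplicit false
set_option linter.unusedSectionVars false
set_option linter.unusedVariables false

/-! Half-edges of paths, and the second moment bound. -/

namespace Pool.Agent.R959.KN

open MeasureTheory Set Finset

variable {d : ℕ}

/-- the half-edges used by the path from `x` with the given directions -/
def hed : Pt d → List (Dir d) → Finset (Pt d × Dir d)
  | _, [] => ∅
  | x, v :: l => insert (x, v) (insert (x + stp v, rev v) (hed (x + stp v) l))

/-- the level of a point -/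
def lev (x : Pt d) : ℤ := ∑ j, x j

theorem lev_add (x y : Pt d) : lev (x + y) = lev x + lev y := by
  unfold lev; simp [Finset.sum_add_distrib]

theorem lev_stp (v : Dir d) : lev (stp v) = if v.2 then 1 else -1 := by
  unfold lev stp
  rw [Finset.sum_pi_single']
  simp

theorem lev_step {x : Pt d} {v : Dir d} (hv : v.2 = true) : lev (x + stp v) = lev x + 1 := by
  rw [lev_add, lev_stp, if_pos hv]

/-- level of the edge containing a half-edge -/
def el (h : Pt d × Dir d) : ℤ := if h.2.2 then lev h.1 else lev h.1 - 1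

theorem rev_snd (v : Dir d) : (rev v).2 = !v.2 := rfl

theorem el_fst {x : Pt d} {v : Dir d} (hv : v.2 = true) : el (x, v) = lev x := by
  simp [el, hv]

theorem el_snd {x : Pt d} {v : Dir d} (hv : v.2 = true) : el (x + stp v, rev v) = lev x := by
  simp only [el, rev_snd, hv, Bool.not_true, Bool.false_eq_true, if_false, lev_step hv]
  ring

theorem le_el : ∀ (l : List (Dir d)) (x : Pt d), (∀ v ∈ l, v.2 = true) →
    ∀ h ∈ hed x l, lev x ≤ el h
  | [], x, _, h, hh => by simp [hed] at hh
  | v :: l, x, hl, h, hh => by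
    have hv : v.2 = true := hl v (by simp)
    rw [hed, Finset.mem_insert, Finset.mem_insert] at hh
    rcases hh with rfl | rfl | hh
    · exact (el_fst hv).ge
    · exact (el_snd hv).ge
    · have := le_el l (x + stp v) (fun w hw => hl w (by simp [hw])) h hh
      rw [lev_step hv] at this
      linarith

theorem hed_unique : ∀ (l : List (Dir d)) (x : Pt d), (∀ v ∈ l, v.2 = true) →
    ∀ h ∈ hed x l, ∀ h' ∈ hed x l, h.1 = h'.1 → h.2.2 = h'.2.2 → h = h'
  | [], x, _, h, hh, _, _, _, _ => by simp [hed] at hh
  | v :: l, x, hl, h, hh, h', hh', h1, h2 => by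
    have hv : v.2 = true := hl v (by simp)
    have hl' : ∀ w ∈ l, w.2 = true := fun w hw => hl w (by simp [hw])
    have hel : el h = el h' := by unfold el; rw [h1, h2]
    rw [hed, Finset.mem_insert, Finset.mem_insert] at hh hh'
    have ht : ∀ g ∈ hed (x + stp v) l, lev x + 1 ≤ el g := by
      intro g hg
      have := le_el l (x + stp v) hl' g hg
      rwa [lev_step hv] at this
    have e1 := el_fst (x := x) hv
    have e2 := el_snd (x := x) hv
    rcases hh with rfl | rfl | hh <;> rcases hh' with rfl | rfl | hh'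
    · rfl
    · simp only [rev_snd, hv, Bool.not_true] at h2; exact absurd h2 (by simp)
    · have := ht _ hh'; linarith
    · simp only [rev_snd, hv, Bool.not_true] at h2; exact absurd h2 (by simp)
    · rfl
    · have := ht _ hh'; linarith
    · have := ht _ hh; linarith
    · have := ht _ hh; linarith
    · exact hed_unique l (x + stp v) hl' h hh h' hh' h1 h2

theorem fib_hed_le (l : List (Dir d)) (x : Pt d) (hl : ∀ v ∈ l, v.2 = true) (y : Pt d) :
    (fib (hed x l) y).card ≤ 2 := by
  have : (fib (hed x l) y).card ≤ (Finset.univ : Finset Bool).card := by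
    refine Finset.card_le_card_of_injOn (fun v => v.2) (fun _ _ => Finset.mem_coe.2 (Finset.mem_univ _)) ?_
    intro v hv w hw h
    have := hed_unique l x hl _ (mem_fib.1 hv) _ (mem_fib.1 hw) rfl h
    exact congrArg Prod.snd this
  simpa using this

theorem inter_card (x x' : Pt d) (v v' : Dir d) (l l' : List (Dir d)) (hx : lev x = lev x')
    (hv : v.2 = true) (hv' : v'.2 = true) (hl : ∀ v ∈ l, v.2 = true) (hl' : ∀ v ∈ l', v.2 = true) :
    (hed x (v :: l) ∩ hed x' (v' :: l')).card ≤
      (open Classical in if x = x' ∧ v = v' then 2 else 0) +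
        (hed (x + stp v) l ∩ hed (x' + stp v') l').card := by
  classical
  have hsub : hed x (v :: l) ∩ hed x' (v' :: l') ⊆
      (({(x, v), (x + stp v, rev v)} : Finset (Pt d × Dir d)) ∩ {(x', v'), (x' + stp v', rev v')}) ∪
        (hed (x + stp v) l ∩ hed (x' + stp v') l') := by
    intro h hh
    rw [Finset.mem_inter, hed, hed, Finset.mem_insert, Finset.mem_insert, Finset.mem_insert,
      Finset.mem_insert] at hh
    rw [Finset.mem_union, Finset.mem_inter, Finset.mem_inter, Finset.mem_insert,
      Finset.mem_insert, Finset.mem_singleton, Finset.mem_singleton]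
    have t1 : h ∈ hed (x + stp v) l → lev x + 1 ≤ el h := by
      intro hg
      have := le_el l (x + stp v) hl h hg
      rwa [lev_step hv] at this
    have t2 : h ∈ hed (x' + stp v') l' → lev x' + 1 ≤ el h := by
      intro hg
      have := le_el l' (x' + stp v') hl' h hg
      rwa [lev_step hv'] at this
    have s1 : (h = (x, v) ∨ h = (x + stp v, rev v)) → el h = lev x := by
      rintro (rfl | rfl)
      · exact el_fst hv
      · exact el_snd hv
    have s2 : (h = (x', v') ∨ h = (x' + stp v', rev v')) → el h = lev x' := by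
      rintro (rfl | rfl)
      · exact el_fst hv'
      · exact el_snd hv'
    obtain ⟨ha, hb⟩ := hh
    rw [← or_assoc] at ha hb
    rcases ha with ha | ha <;> rcases hb with hb | hb
    · exact Or.inl ⟨ha, hb⟩
    · have := s1 ha; have := t2 hb; exfalso; linarith
    · have := s2 hb; have := t1 ha; exfalso; linarith
    · exact Or.inr ⟨ha, hb⟩
  refine (Finset.card_le_card hsub).trans ((Finset.card_union_le _ _).trans ?_)
  refine Nat.add_le_add_right ?_ _
  split_ifs with h
  · exact (Finset.card_le_card Finset.inter_subset_left).trans Finset.card_le_two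
  · rw [Nat.le_zero, Finset.card_eq_zero, Finset.eq_empty_iff_forall_notMem]
    intro g hg
    rw [Finset.mem_inter, Finset.mem_insert, Finset.mem_insert, Finset.mem_singleton,
      Finset.mem_singleton] at hg
    obtain ⟨ha, hb⟩ := hg
    apply h
    rcases ha with rfl | rfl <;> rcases hb with hb | hb
    · rw [Prod.mk.injEq] at hb; exact hb
    · rw [Prod.mk.injEq] at hb
      have := congrArg Prod.snd hb.2
      simp [rev_snd, hv, hv'] at this
    · rw [Prod.mk.injEq] at hb
      have := congrArg Prod.snd hb.2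
      simp [rev_snd, hv, hv'] at this
    · rw [Prod.mk.injEq] at hb
      have h1 : v = v' := by
        have := hb.2
        rcases v with ⟨a, b⟩
        rcases v' with ⟨a', b'⟩
        simp only [rev, Prod.mk.injEq] at this
        exact Prod.ext this.1 (by cases b <;> cases b' <;> simp_all)
      subst h1
      exact ⟨add_right_cancel hb.1, rfl⟩

section sched
variable {m : ℕ} (ι : Fin 4 × Bool × Fin m ↪ Fin d)

/-- the directions of a schedule -/
def dirs : ℕ → List (Al m) → List (Dir d)
  | _, [] => []
  | i, a :: l => dr ι i a :: dirs (i + 1) l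

theorem dirs_pos : ∀ (l : List (Al m)) (i : ℕ), ∀ v ∈ dirs ι i l, v.2 = true
  | [], _, v, hv => by simp [dirs] at hv
  | a :: l, i, v, hv => by
    rw [dirs, List.mem_cons] at hv
    rcases hv with rfl | hv
    · rfl
    · exact dirs_pos l (i + 1) v hv

/-- weight of a pair of schedules -/
noncomputable def wg (s : ℝ) : ℕ → Pt d → List (Al m) → List (Al m) → ℝ
  | _, _, [], _ => 1
  | _, _, _ :: _, [] => 1
  | i, D, a :: l, a' :: l' => (open Classical in if D = 0 ∧ a = a' then s ^ 2 else 1) *
      wg s (i + 1) (nd ι i D a a') l l'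

theorem wg_nonneg (s : ℝ) : ∀ (l l' : List (Al m)) (i : ℕ) (D : Pt d), 0 ≤ wg ι s i D l l'
  | [], _, _, _ => by simp [wg]
  | _ :: _, [], _, _ => by simp [wg]
  | a :: l, a' :: l', i, D => by
    rw [wg]
    refine mul_nonneg ?_ (wg_nonneg s l l' _ _)
    split_ifs
    · positivity
    · norm_num

theorem pow_inter_le (s : ℝ) (hs : 1 ≤ s) : ∀ (l l' : List (Al m)) (i : ℕ) (x x' : Pt d),
    l.length = l'.length → lev x = lev x' →
    s ^ (hed x (dirs ι i l) ∩ hed x' (dirs ι i l')).card ≤ wg ι s i (x - x') l l'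
  | [], l', i, x, x', _, _ => by simp [dirs, hed, wg]
  | a :: l, [], i, x, x', h, _ => by simp at h
  | a :: l, a' :: l', i, x, x', h, hx => by
    classical
    have hlen : l.length = l'.length := by simpa using h
    have hv : (dr ι i a).2 = true := rfl
    have hv' : (dr ι i a').2 = true := rfl
    have ih := pow_inter_le s hs l l' (i + 1) (x + stp (dr ι i a)) (x' + stp (dr ι i a')) hlen
      (by rw [lev_step hv, lev_step hv', hx])
    have h1 := inter_card x x' (dr ι i a) (dr ι i a') (dirs ι (i + 1) l) (dirs ι (i + 1) l') hx hv hv'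
      (dirs_pos ι l _) (dirs_pos ι l' _)
    rw [dirs, dirs]
    refine (pow_le_pow_right₀ hs h1).trans ?_
    rw [pow_add, wg]
    have e1 : x + stp (dr ι i a) - (x' + stp (dr ι i a')) = nd ι i (x - x') a a' := by
      unfold nd; abel
    rw [e1] at ih
    refine mul_le_mul ?_ ih (by positivity) ?_
    · by_cases hc : x = x' ∧ dr ι i a = dr ι i a'
      · have ha : a = a' := by
          have := hc.2
          unfold dr at this
          simpa using this
        rw [if_pos hc, if_pos ⟨sub_eq_zero.2 hc.1, ha⟩]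
      · rw [if_neg hc, pow_zero]
        split_ifs
        · exact one_le_pow₀ hs
        · exact le_rfl
    · split_ifs
      · positivity
      · norm_num

/-- the cons embedding -/
def consEmb (m : ℕ) : Al m × List (Al m) ↪ List (Al m) :=
  ⟨fun p => p.1 :: p.2, fun p q h => by
    have h' : p.1 :: p.2 = q.1 :: q.2 := h
    rw [List.cons.injEq] at h'
    exact Prod.ext h'.1 h'.2⟩

/-- lists of length `n` -/
def paths (m : ℕ) : ℕ → Finset (List (Al m))
  | 0 => {[]}
  | n + 1 => ((Finset.univ : Finset (Al m)) ×ˢ paths m n).map (consEmb m)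

theorem sum_paths {β : Type} [AddCommMonoid β] (n : ℕ) (f : List (Al m) → β) :
    ∑ l ∈ paths m (n + 1), f l = ∑ a : Al m, ∑ l ∈ paths m n, f (a :: l) := by
  rw [paths, Finset.sum_map, Finset.sum_product]
  rfl

theorem paths_length : ∀ (n : ℕ), ∀ l ∈ paths m n, l.length = n
  | 0, l, hl => by
    rw [paths, Finset.mem_singleton] at hl; subst hl; rfl
  | n + 1, l, hl => by
    rw [paths, Finset.mem_map] at hl
    obtain ⟨p, hp, rfl⟩ := hl
    rw [Finset.mem_product] at hp
    have := paths_length n p.2 hp.2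
    change (p.1 :: p.2).length = n + 1
    rw [List.length_cons, this]

theorem paths_card : ∀ n : ℕ, ((paths m n).card : ℝ) = (2 * (m : ℝ)) ^ n
  | 0 => by simp [paths]
  | n + 1 => by
    rw [paths, Finset.card_map, Finset.card_product, Nat.cast_mul, paths_card n, Finset.card_univ,
      card_Al, pow_succ, mul_comm]

theorem sum_wg (s : ℝ) : ∀ (n i : ℕ) (D : Pt d),
    ∑ l ∈ paths m n, ∑ l' ∈ paths m n, wg ι s i D l l' = FF ι s n i D
  | 0, i, D => by simp [paths, wg, FF]
  | n + 1, i, D => by
    rw [sum_paths, FF]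
    have h1 : ∀ a : Al m, ∀ l ∈ paths m n, ∑ l' ∈ paths m (n + 1), wg ι s i D (a :: l) l' =
        ∑ a' : Al m, ∑ l' ∈ paths m n,
          (open Classical in if D = 0 ∧ a = a' then s ^ 2 else 1) *
            wg ι s (i + 1) (nd ι i D a a') l l' := by
      intro a l hl
      rw [sum_paths]
      rfl
    refine Finset.sum_congr rfl fun a _ => ?_
    rw [Finset.sum_congr rfl (h1 a), Finset.sum_comm]
    refine Finset.sum_congr rfl fun a' _ => ?_
    rw [← sum_wg s n (i + 1) (nd ι i D a a'), Finset.mul_sum]
    refine Finset.sum_congr rfl fun l _ => ?_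
    rw [Finset.mul_sum]

theorem reach_prob {k : ℕ} (hk4 : 4 ≤ k) (hk : k ≤ 2 * d) (hm : 0 < m)
    (hs : 10 * ((rr d k 1)⁻¹) ^ 2 ≤ 2 * m) (n : ℕ) :
    1 / 2 ≤ (law d k (⋃ l ∈ paths m n, ev (hed 0 (dirs ι 0 l)))).toReal := by
  have : Fact (k ≤ 2 * d) := ⟨hk⟩
  have hm' : (0 : ℝ) < m := by exact_mod_cast hm
  have r1 : 0 < rr d k 1 := by
    unfold rr
    have h2 : (4 : ℝ) ≤ k := by exact_mod_cast hk4
    have h3 : (k : ℝ) ≤ 2 * d := by exact_mod_cast hk
    push_cast
    exact div_pos (by linarith) (by linarith)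
  have r1' : rr d k 1 ≤ 1 := by
    unfold rr
    have h2 : (4 : ℝ) ≤ k := by exact_mod_cast hk4
    have h3 : (k : ℝ) ≤ 2 * d := by exact_mod_cast hk
    push_cast
    rw [div_le_one (by linarith)]
    linarith
  have hs1 : 1 ≤ (rr d k 1)⁻¹ := (one_le_inv₀ r1).2 r1'
  have hfib : ∀ l : List (Al m), ∀ y, (fib (hed (0 : Pt d) (dirs ι 0 l)) y).card ≤ 2 :=
    fun l y => fib_hed_le _ _ (dirs_pos ι l 0) y
  have hpos : ∀ l : List (Al m), 0 < (law d k (ev (hed (0 : Pt d) (dirs ι 0 l)))).toReal :=
    fun l => ev_pos hk _ (fun x => (hfib l x).trans (by omega))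
  refine second_moment (law d k) (paths m n) ?_ (fun l => ev (hed (0 : Pt d) (dirs ι 0 l)))
    (fun l _ => ev_meas _) (fun l _ => hpos l) 2 ?_ (by norm_num)
  · rw [← Finset.card_pos]
    have := paths_card (m := m) n
    have h2 : (0 : ℝ) < (2 * (m : ℝ)) ^ n := by positivity
    rw [← this] at h2
    exact_mod_cast h2
  · calc ∑ l ∈ paths m n, ∑ l' ∈ paths m n,
          (law d k (ev (hed (0 : Pt d) (dirs ι 0 l)) ∩ ev (hed (0 : Pt d) (dirs ι 0 l')))).toReal /
          ((law d k (ev (hed (0 : Pt d) (dirs ι 0 l)))).toReal *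
            (law d k (ev (hed (0 : Pt d) (dirs ι 0 l')))).toReal)
        ≤ ∑ l ∈ paths m n, ∑ l' ∈ paths m n, wg ι ((rr d k 1)⁻¹) 0 0 l l' := by
          refine Finset.sum_le_sum fun l hl => Finset.sum_le_sum fun l' hl' => ?_
          rw [div_le_iff₀ (mul_pos (hpos l) (hpos l'))]
          refine (pair_le hk4 hk _ _ (hfib l) (hfib l')).trans ?_
          rw [mul_comm]
          refine mul_le_mul_of_nonneg_right ?_ (mul_pos (hpos l) (hpos l')).le
          have := pow_inter_le ι ((rr d k 1)⁻¹) hs1 l l' 0 0 0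
            (by rw [paths_length n l hl, paths_length n l' hl']) rfl
          rwa [sub_zero] at this
      _ = FF ι ((rr d k 1)⁻¹) n 0 0 := sum_wg ι _ n 0 0
      _ ≤ 2 * (2 * (m : ℝ)) ^ (2 * n) := FF_bound ι _ hm hs n 0
      _ = _ := by rw [paths_card, mul_comm 2 n, pow_mul]

end sched

end Pool.Agent.R959.KN
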