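import Pool.Agent.R959.KN4

set_option autoImplicit false
set_option linter.unusedSectionVars false
set_option linter.unusedVariables false

/-! Percolation for `k ≥ C √d`. -/

namespace Pool.Agent.R959.KN

open MeasureTheory Set Finset
open scoped ENNReal

variable {d : ℕ}

/-- end point of the path from `x` with the given directions -/
def endpt : Pt d → List (Dir d) → Pt d
  | x, [] => x
  | x, v :: l => endpt (x + stp v) l

theorem ev_reach (ω : Pt d → Finset (Dir d)) : ∀ (l : List (Dir d)) (x : Pt d),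
    ω ∈ ev (hed x l) → (graph ω).Reachable x (endpt x l)
  | [], x, _ => SimpleGraph.Reachable.refl _
  | v :: l, x, h => by
    have h1 : (graph ω).Adj x (x + stp v) := by
      refine ⟨v, rfl, h (x, v) ?_, h (x + stp v, rev v) ?_⟩
      · rw [hed]; exact Finset.mem_insert_self _ _
      · rw [hed]; exact Finset.mem_insert_of_mem (Finset.mem_insert_self _ _)
    refine h1.reachable.trans (ev_reach ω l (x + stp v) ?_)
    intro e he
    refine h e ?_
    rw [hed]
    exact Finset.mem_insert_of_mem (Finset.mem_insert_of_mem he)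

theorem lev_endpt : ∀ (l : List (Dir d)) (x : Pt d), (∀ v ∈ l, v.2 = true) →
    lev (endpt x l) = lev x + l.length
  | [], x, _ => by simp [endpt]
  | v :: l, x, hl => by
    rw [endpt, lev_endpt l _ (fun w hw => hl w (by simp [hw])), lev_step (hl v (by simp))]
    push_cast [List.length_cons]
    ring

theorem dirs_length {m : ℕ} (ι : Fin 4 × Bool × Fin m ↪ Fin d) : ∀ (l : List (Al m)) (i : ℕ),
    (dirs ι i l).length = l.length
  | [], _ => rfl
  | a :: l, i => by rw [dirs, List.length_cons, List.length_cons, dirs_length ι l]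

theorem lev_zero : lev (0 : Pt d) = 0 := by simp [lev]

theorem infinite_of_levels (S : Set (Pt d)) (h : ∀ N : ℕ, ∃ n ≥ N, ∃ y ∈ S, lev y = n) :
    S.Infinite := by
  intro hfin
  obtain ⟨M, hM⟩ := (hfin.image lev).bddAbove
  obtain ⟨n, hn, y, hy, hyn⟩ := h (M.toNat + 1)
  have h1 : lev y ≤ M := hM ⟨y, hy, rfl⟩
  omega

theorem theta_pos {k m : ℕ} (ι : Fin 4 × Bool × Fin m ↪ Fin d) (hk4 : 4 ≤ k) (hk : k ≤ 2 * d)
    (hm : 0 < m) (hs : 10 * ((rr d k 1)⁻¹) ^ 2 ≤ 2 * m) : 0 < theta k d := by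
  have : Fact (k ≤ 2 * d) := ⟨hk⟩
  set A : ℕ → Set (Pt d → Finset (Dir d)) :=
    fun n => ⋃ l ∈ paths m n, ev (hed 0 (dirs ι 0 l)) with hA
  have hAm : ∀ n, MeasurableSet (A n) := fun n =>
    Finset.measurableSet_biUnion _ fun l _ => ev_meas _
  have hA2 : ∀ n, (1 / 2 : ℝ≥0∞) ≤ law d k (A n) := by
    intro n
    have h := reach_prob ι hk4 hk hm hs n
    have h2 : ENNReal.ofReal (1 / 2) ≤ law d k (A n) :=
      (ENNReal.ofReal_le_ofReal h).trans (by rw [ENNReal.ofReal_toReal (measure_ne_top _ _)])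
    refine le_trans (le_of_eq ?_) h2
    rw [ENNReal.ofReal_div_of_pos (by norm_num)]
    simp
  set B : ℕ → Set (Pt d → Finset (Dir d)) := fun N => ⋃ n, ⋃ (_ : N ≤ n), A n with hB
  have hBm : ∀ N, MeasurableSet (B N) := fun N =>
    MeasurableSet.iUnion fun n => MeasurableSet.iUnion fun _ => hAm n
  have hBanti : Antitone B := by
    intro N M hNM ω hω
    simp only [hB, Set.mem_iUnion] at hω ⊢
    obtain ⟨n, hn, h⟩ := hω
    exact ⟨n, hNM.trans hn, h⟩
  have hB2 : ∀ N, (1 / 2 : ℝ≥0∞) ≤ law d k (B N) := by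
    intro N
    refine (hA2 N).trans (measure_mono ?_)
    intro ω hω
    simp only [hB, Set.mem_iUnion]
    exact ⟨N, le_rfl, hω⟩
  have hlim := tendsto_measure_iInter_atTop (μ := law d k) (s := B)
    (fun N => (hBm N).nullMeasurableSet) hBanti ⟨0, measure_ne_top _ _⟩
  have h3 : (1 / 2 : ℝ≥0∞) ≤ law d k (⋂ N, B N) :=
    ge_of_tendsto hlim (Filter.Eventually.of_forall hB2)
  have h4 : (⋂ N, B N) ⊆ {ω | {y | (graph ω).Reachable 0 y}.Infinite} := by
    intro ω hω
    refine infinite_of_levels _ ?_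
    intro N
    have h5 := Set.mem_iInter.1 hω N
    simp only [hB, hA, Set.mem_iUnion] at h5
    obtain ⟨n, hn, l, hl, h6⟩ := h5
    refine ⟨n, hn, endpt 0 (dirs ι 0 l), ev_reach ω _ _ h6, ?_⟩
    rw [lev_endpt _ _ (dirs_pos ι l 0), lev_zero, dirs_length, paths_length n l hl, zero_add]
  calc (0 : ℝ≥0∞) < 1 / 2 := by simp
    _ ≤ law d k (⋂ N, B N) := h3
    _ ≤ theta k d := measure_mono h4

/-- explicit condition -/
theorem theta_pos_of {k : ℕ} (hd : 100 ≤ d) (hk : k ≤ 2 * d)
    (hk2 : 14 * Real.sqrt d ≤ (k : ℝ) - 1) : 0 < theta k d := by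
  have hd' : (100 : ℝ) ≤ d := by exact_mod_cast hd
  have hsq : (10 : ℝ) ≤ Real.sqrt d := by
    rw [show (10 : ℝ) = Real.sqrt 100 by
      rw [show (100 : ℝ) = 10 ^ 2 by norm_num, Real.sqrt_sq (by norm_num)]]
    exact Real.sqrt_le_sqrt hd'
  have hk4 : 4 ≤ k := by
    have : (4 : ℝ) ≤ k := by linarith
    exact_mod_cast this
  have hle : Fintype.card (Fin 4 × Bool × Fin (d / 8)) ≤ Fintype.card (Fin d) := by
    simp only [Fintype.card_prod, Fintype.card_fin, Fintype.card_bool]
    omega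
  obtain ⟨ι⟩ := Function.Embedding.nonempty_of_card_le hle
  refine theta_pos ι hk4 hk (by omega) ?_
  have hm : ((d : ℝ) - 7) / 8 ≤ ((d / 8 : ℕ) : ℝ) := by
    rw [div_le_iff₀ (by norm_num)]
    have : d ≤ (d / 8) * 8 + 7 := by omega
    have : (d : ℝ) ≤ ((d / 8 : ℕ) : ℝ) * 8 + 7 := by exact_mod_cast this
    linarith
  unfold rr
  rw [inv_div, div_pow]
  push_cast
  have h1 : 0 < ((k : ℝ) - 1) := by linarith
  have h2 : 196 * (d : ℝ) ≤ ((k : ℝ) - 1) ^ 2 := by
    have : (14 * Real.sqrt d) ^ 2 ≤ ((k : ℝ) - 1) ^ 2 := pow_le_pow_left₀ (by positivity) hk2 2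
    rw [mul_pow, Real.sq_sqrt (by linarith)] at this
    linarith
  rw [← mul_div_assoc, div_le_iff₀ (by positivity)]
  have h3 : (2 * ((((d : ℝ) - 7) / 8))) * (196 * (d : ℝ)) ≤
      2 * ((d / 8 : ℕ) : ℝ) * ((k : ℝ) - 1) ^ 2 := by
    refine mul_le_mul (by linarith) h2 (by positivity) (by positivity)
  refine le_trans ?_ h3
  nlinarith

theorem theta_full (hd : 1 ≤ d) : 0 < theta (2 * d) d := by
  have h1 : (Finset.powersetCard (2 * d) (Finset.univ : Finset (Dir d))) = {Finset.univ} := by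
    rw [← card_dir d, Finset.powersetCard_self]
  have h2 : (ProbabilityTheory.uniformOn
      (Finset.powersetCard (2 * d) (Finset.univ : Finset (Dir d)) : Set (Finset (Dir d)))) =
      Measure.dirac (Finset.univ : Finset (Dir d)) := by
    rw [h1]
    ext s hs
    rw [Finset.coe_singleton, Measure.dirac_apply' _ hs]
    classical
    rw [ProbabilityTheory.uniformOn_singleton, Set.indicator_apply]
    rfl
  unfold theta law
  rw [h2, Measure.infinitePi_dirac]
  rw [Measure.dirac_apply_of_mem]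
  · exact one_pos
  · refine infinite_of_levels _ ?_
    intro N
    set v0 : Dir d := (⟨0, hd⟩, true) with hv0
    refine ⟨N, le_rfl, endpt 0 (List.replicate N v0), ev_reach _ _ _ ?_, ?_⟩
    · intro e _; exact Finset.mem_univ _
    · rw [lev_endpt, lev_zero, List.length_replicate, zero_add]
      intro v hv
      rw [List.eq_of_mem_replicate hv]

end Pool.Agent.R959.KN
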