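import Pool.Agent.R959.KN5

set_option autoImplicit false
set_option linter.unusedSectionVars false
set_option linter.unusedVariables false

/-! No percolation for `k(k-1) < 2d`. -/

namespace Pool.Agent.R959.KN

open MeasureTheory Set Finset
open scoped ENNReal

variable {d k : ℕ}

theorem phi_gt {j : ℕ} (h : k < j) : phi d k j = 0 := by
  unfold phi
  refine Finset.prod_eq_zero (Finset.mem_range.2 h) ?_
  simp

theorem phi_bd (hk : k ≤ 2 * d) (j : ℕ) : 0 ≤ phi d k j ∧ phi d k (j + 1) ≤ phi d k j := by
  have h0 : 0 ≤ phi d k j := by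
    rcases Nat.lt_or_ge k j with h | h
    · rw [phi_gt h]
    · exact (phi_pos hk j h).le
  refine ⟨h0, ?_⟩
  rcases Nat.lt_or_ge j k with h | h
  · rw [phi_succ]
    have h1 : (j : ℝ) < k := by exact_mod_cast h
    have h2 : (k : ℝ) ≤ 2 * d := by exact_mod_cast hk
    refine mul_le_of_le_one_right h0 ?_
    rw [div_le_one (by linarith)]
    linarith
  · rw [phi_gt (by omega : k < j + 1)]; exact h0

theorem phi_anti (hk : k ≤ 2 * d) {i j : ℕ} (h : i ≤ j) : phi d k j ≤ phi d k i := by
  induction j, h using Nat.le_induction with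
  | base => exact le_rfl
  | succ j _ ih => exact (phi_bd hk j).2.trans ih

theorem phi_le_one (hk : k ≤ 2 * d) (j : ℕ) : phi d k j ≤ 1 := by
  have := phi_anti hk (Nat.zero_le j)
  simpa [phi] using this

theorem unif_sup_all (d k : ℕ) (hk : k ≤ 2 * d) (R : Finset (Dir d)) :
    (ProbabilityTheory.uniformOn (Finset.powersetCard k (Finset.univ : Finset (Dir d)) :
      Set (Finset (Dir d))) {S | R ⊆ S}).toReal = phi d k R.card := by
  rcases Nat.lt_or_ge k R.card with h | h
  · rw [phi_gt h]
    have : (ProbabilityTheory.uniformOn (Finset.powersetCard k (Finset.univ : Finset (Dir d)) :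
      Set (Finset (Dir d))) {S | R ⊆ S}) = 0 := by
      rw [ProbabilityTheory.uniformOn_eq_zero_iff (Finset.finite_toSet _)]
      ext S
      simp only [Set.mem_inter_iff, Finset.mem_coe, Finset.mem_powersetCard, Set.mem_ofPred_eq,
        Set.mem_empty_iff_false, iff_false, not_and]
      rintro ⟨_, h2⟩ h3
      have := Finset.card_le_card h3
      omega
    rw [this]; rfl
  · exact unif_sup d k hk R h

theorem ev_prob_all (hk : k ≤ 2 * d) (H : Finset (Pt d × Dir d)) (X : Finset (Pt d))
    (hX : ∀ h ∈ H, h.1 ∈ X) :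
    (law d k (ev H)).toReal = ∏ x ∈ X, phi d k (fib H x).card := by
  have : Fact (k ≤ 2 * d) := ⟨hk⟩
  rw [ev_eq H X hX, law, Measure.infinitePi_pi _ (fun x _ => (Set.toFinite _).measurableSet),
    ENNReal.toReal_prod]
  refine Finset.prod_congr rfl fun x _ => ?_
  exact unif_sup_all d k hk _

/-- vertices of the path -/
def verts : Pt d → List (Dir d) → List (Pt d)
  | x, [] => [x]
  | x, v :: l => x :: verts (x + stp v) l

/-- inner vertices -/
def inner' : Pt d → List (Dir d) → List (Pt d)
  | _, [] => []
  | _, [_] => []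
  | x, v :: w :: l => (x + stp v) :: inner' (x + stp v) (w :: l)

theorem inner_sub : ∀ (l : List (Dir d)) (x : Pt d), (inner' x l).Sublist (verts x l).tail
  | [], x => by simp [inner']
  | [v], x => by simp [inner']
  | v :: w :: l, x => by
    have ih := inner_sub (w :: l) (x + stp v)
    rw [inner', verts, List.tail_cons]
    have : verts (x + stp v) (w :: l) = (x + stp v) :: (verts (x + stp v) (w :: l)).tail := rfl
    rw [this]
    exact List.Sublist.cons_cons _ ih

theorem inner_length : ∀ (l : List (Dir d)) (x : Pt d), (inner' x l).length = l.length - 1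
  | [], x => rfl
  | [v], x => rfl
  | v :: w :: l, x => by
    rw [inner', List.length_cons, inner_length (w :: l)]
    simp

theorem stp_rev (v : Dir d) : stp (rev v) = - stp v := by
  rcases v with ⟨a, b⟩
  funext i
  cases b <;> by_cases h : i = a <;> simp [stp, rev, h]

theorem inner_fib : ∀ (l : List (Dir d)) (x : Pt d), (verts x l).Nodup →
    ∀ y ∈ inner' x l, 2 ≤ (fib (hed x l) y).card
  | [], x, _, y, hy => by simp [inner'] at hy
  | [v], x, _, y, hy => by simp [inner'] at hy
  | v :: w :: l, x, hn, y, hy => by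
    have hn' : (verts (x + stp v) (w :: l)).Nodup := (List.nodup_cons.1 hn).2
    rw [inner', List.mem_cons] at hy
    rcases hy with rfl | hy
    · have hne : rev v ≠ w := by
        rintro rfl
        have h1 := (List.nodup_cons.1 hn).1
        apply h1
        rw [verts, stp_rev, add_neg_cancel_right]
        rcases l with _ | ⟨u, l⟩ <;> simp [verts]
      have hsub : ({rev v, w} : Finset (Dir d)) ⊆ fib (hed x (v :: w :: l)) (x + stp v) := by
        intro u hu
        rw [Finset.mem_insert, Finset.mem_singleton] at hu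
        rw [mem_fib, hed, hed]
        rcases hu with rfl | rfl
        · exact Finset.mem_insert_of_mem (Finset.mem_insert_self _ _)
        · exact Finset.mem_insert_of_mem (Finset.mem_insert_of_mem (Finset.mem_insert_self _ _))
      have := Finset.card_le_card hsub
      rwa [Finset.card_pair hne] at this
    · refine (inner_fib (w :: l) (x + stp v) hn' y hy).trans (Finset.card_le_card ?_)
      intro u hu
      rw [mem_fib] at hu ⊢
      rw [hed]
      exact Finset.mem_insert_of_mem (Finset.mem_insert_of_mem hu)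

theorem saw_prob (hk : k ≤ 2 * d) (l : List (Dir d)) (x : Pt d) (hn : (verts x l).Nodup) :
    (law d k (ev (hed x l))).toReal ≤ phi d k 2 ^ (l.length - 1) := by
  classical
  set X := (hed x l).image Prod.fst with hX
  rw [ev_prob_all hk (hed x l) X (fun h hh => Finset.mem_image_of_mem _ hh)]
  set I := (inner' x l).toFinset with hI
  have hIX : I ⊆ X := by
    intro y hy
    rw [hI, List.mem_toFinset] at hy
    have h2 := inner_fib l x hn y hy
    have h3 : (fib (hed x l) y).Nonempty := by
      rw [← Finset.card_pos]; omega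
    obtain ⟨v, hv⟩ := h3
    exact Finset.mem_image.2 ⟨(y, v), mem_fib.1 hv, rfl⟩
  have hcard : I.card = l.length - 1 := by
    rw [hI, List.toFinset_card_of_nodup, inner_length]
    exact List.Nodup.sublist (inner_sub l x) (hn.sublist (List.tail_sublist _))
  rw [← Finset.prod_sdiff hIX]
  have h1 : ∏ y ∈ X \ I, phi d k (fib (hed x l) y).card ≤ 1 :=
    Finset.prod_le_one (fun y _ => (phi_bd hk _).1) (fun y _ => phi_le_one hk _)
  have h2 : ∏ y ∈ I, phi d k (fib (hed x l) y).card ≤ ∏ y ∈ I, phi d k 2 := by
    refine Finset.prod_le_prod (fun y _ => (phi_bd hk _).1) fun y hy => ?_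
    rw [hI, List.mem_toFinset] at hy
    exact phi_anti hk (inner_fib l x hn y hy)
  rw [Finset.prod_const, hcard] at h2
  calc _ ≤ 1 * ∏ y ∈ I, phi d k (fib (hed x l) y).card :=
        mul_le_mul_of_nonneg_right h1 (Finset.prod_nonneg fun y _ => (phi_bd hk _).1)
    _ ≤ _ := by rw [one_mul]; exact h2

/-- non-backtracking lists whose first letter is not `u` -/
def nbl : ℕ → Dir d → Finset (List (Dir d))
  | 0, _ => {[]}
  | n + 1, u => (Finset.univ.erase u).biUnion fun v => (nbl n (rev v)).image (List.cons v)

theorem nbl_card : ∀ (n : ℕ) (u : Dir d), (nbl n u).card ≤ (2 * d - 1) ^ n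
  | 0, u => by simp [nbl]
  | n + 1, u => by
    rw [nbl]
    refine Finset.card_biUnion_le.trans ?_
    calc ∑ v ∈ Finset.univ.erase u, ((nbl n (rev v)).image (List.cons v)).card
        ≤ ∑ v ∈ Finset.univ.erase u, (2 * d - 1) ^ n :=
          Finset.sum_le_sum fun v _ => Finset.card_image_le.trans (nbl_card n _)
      _ = _ := by
          rw [Finset.sum_const, Finset.card_erase_of_mem (Finset.mem_univ u), card_dir, smul_eq_mul,
            pow_succ, mul_comm]

/-- all non-backtracking lists of length `n+1` -/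
def nba (d n : ℕ) : Finset (List (Dir d)) :=
  (Finset.univ : Finset (Dir d)).biUnion fun v => (nbl n (rev v)).image (List.cons v)

theorem nba_card (d n : ℕ) : (nba d n).card ≤ 2 * d * (2 * d - 1) ^ n := by
  unfold nba
  refine Finset.card_biUnion_le.trans ?_
  calc ∑ v : Dir d, ((nbl n (rev v)).image (List.cons v)).card
      ≤ ∑ v : Dir d, (2 * d - 1) ^ n :=
        Finset.sum_le_sum fun v _ => Finset.card_image_le.trans (nbl_card n _)
    _ = _ := by rw [Finset.sum_const, card_dir, smul_eq_mul]

theorem mem_nbl : ∀ (l : List (Dir d)) (x : Pt d) (u : Dir d), (verts x l).Nodup →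
    x + stp u ∉ verts x l → l ∈ nbl l.length u
  | [], x, u, _, _ => by simp [nbl]
  | v :: l, x, u, hn, hu => by
    have hn2 := List.nodup_cons.1 hn
    rw [List.length_cons, nbl, Finset.mem_biUnion]
    refine ⟨v, ?_, Finset.mem_image_of_mem _ (mem_nbl l (x + stp v) (rev v) hn2.2 ?_)⟩
    · rw [Finset.mem_erase]
      refine ⟨?_, Finset.mem_univ _⟩
      rintro rfl
      apply hu
      rw [verts]
      rcases l with _ | ⟨w, l⟩ <;> simp [verts]
    · rw [stp_rev, add_neg_cancel_right]
      exact hn2.1

theorem mem_nba (l : List (Dir d)) (n : ℕ) (hl : l.length = n + 1) (hn : (verts 0 l).Nodup) :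
    l ∈ nba d n := by
  rcases l with _ | ⟨v, l⟩
  · simp at hl
  · have hl' : l.length = n := by simpa using hl
    subst hl'
    have hn2 := List.nodup_cons.1 hn
    unfold nba
    rw [Finset.mem_biUnion]
    refine ⟨v, Finset.mem_univ _, Finset.mem_image_of_mem _ (mem_nbl l _ (rev v) hn2.2 ?_)⟩
    rw [stp_rev, add_neg_cancel_right]
    exact hn2.1

theorem walk_list (ω : Pt d → Finset (Dir d)) {x y : Pt d} (q : (graph ω).Walk x y) :
    ∃ l : List (Dir d), l.length = q.length ∧ verts x l = q.support ∧ ω ∈ ev (hed x l) := by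
  induction q with
  | nil => exact ⟨[], rfl, rfl, fun e he => by simp [hed] at he⟩
  | @cons x z y h q ih =>
    obtain ⟨l, h1, h2, h3⟩ := ih
    obtain ⟨v, hv1, hv2, hv3⟩ := h
    subst hv1
    refine ⟨v :: l, by rw [List.length_cons, h1]; rfl, by rw [verts, h2]; rfl, ?_⟩
    intro e he
    rw [hed, Finset.mem_insert, Finset.mem_insert] at he
    rcases he with rfl | rfl | he
    · exact hv2
    · exact hv3
    · exact h3 e he

theorem ball_finite (ω : Pt d → Finset (Dir d)) : ∀ (n : ℕ) (x : Pt d),
    {y | ∃ q : (graph ω).Walk x y, q.length ≤ n}.Finite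
  | 0, x => by
    refine (Set.finite_singleton x).subset ?_
    rintro y ⟨q, hq⟩
    exact (SimpleGraph.Walk.eq_of_length_eq_zero (Nat.le_zero.1 hq)).symm
  | n + 1, x => by
    have hlf : ((graph ω).neighborSet x).Finite := by
      refine (Set.finite_range fun v : Dir d => x + stp v).subset ?_
      rintro y ⟨v, h, _⟩
      exact ⟨v, h.symm⟩
    refine (((hlf.biUnion fun u _ => ball_finite ω n u)).union (Set.finite_singleton x)).subset ?_
    rintro y ⟨q, hq⟩
    cases q with
    | nil => right; rfl
    | @cons _ u _ h q =>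
      left
      simp only [SimpleGraph.Walk.length_cons, add_le_add_iff_right] at hq
      exact Set.mem_biUnion (show u ∈ (graph ω).neighborSet x from h) ⟨q, hq⟩

theorem exists_saw (ω : Pt d → Finset (Dir d)) (h : {y | (graph ω).Reachable 0 y}.Infinite)
    (n : ℕ) : ∃ l ∈ (nba d n).filter (fun l => (verts 0 l).Nodup), ω ∈ ev (hed 0 l) := by
  obtain ⟨y, hy, hy2⟩ := h.exists_notMem_finite (ball_finite ω n 0)
  obtain ⟨q, hq⟩ := SimpleGraph.Reachable.exists_isPath hy
  have hlen : n + 1 ≤ q.length := by
    by_contra hlt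
    exact hy2 ⟨q, by omega⟩
  obtain ⟨l, h1, h2, h3⟩ := walk_list ω (q.take (n + 1))
  have h4 : (verts 0 l).Nodup := by
    rw [h2]
    exact (hq.take (n + 1)).support_nodup
  have h5 : l.length = n + 1 := by
    rw [h1, SimpleGraph.Walk.take_length]; omega
  exact ⟨l, Finset.mem_filter.2 ⟨mem_nba l n h5 h4, h4⟩, h3⟩

theorem theta_zero (hd : 1 ≤ d) (hk : k ≤ 2 * d) (h : k * (k - 1) < 2 * d) : theta k d = 0 := by
  have : Fact (k ≤ 2 * d) := ⟨hk⟩
  have hd' : (1 : ℝ) ≤ d := by exact_mod_cast hd
  have hbound : ∀ n : ℕ, (theta k d).toReal ≤ 2 * d * (((k : ℝ) * ((k : ℝ) - 1)) / (2 * d)) ^ n := by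
    intro n
    have h1 : theta k d ≤ ∑ l ∈ (nba d n).filter (fun l => (verts 0 l).Nodup),
        law d k (ev (hed 0 l)) := by
      refine le_trans (measure_mono ?_) (measure_biUnion_finset_le _ _)
      intro ω hω
      obtain ⟨l, hl, h2⟩ := exists_saw ω hω n
      exact Set.mem_biUnion (by exact_mod_cast hl) h2
    have h2 : (theta k d).toReal ≤ ∑ l ∈ (nba d n).filter (fun l => (verts 0 l).Nodup),
        (law d k (ev (hed 0 l))).toReal := by
      rw [← ENNReal.toReal_sum (fun _ _ => measure_ne_top _ _)]
      exact ENNReal.toReal_mono (by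
        rw [← lt_top_iff_ne_top]
        exact ENNReal.sum_lt_top.2 fun _ _ => measure_lt_top _ _) h1
    refine h2.trans ?_
    have h3 : ∀ l ∈ (nba d n).filter (fun l => (verts 0 l).Nodup),
        (law d k (ev (hed 0 l))).toReal ≤ phi d k 2 ^ n := by
      intro l hl
      rw [Finset.mem_filter] at hl
      have h4 := saw_prob hk l 0 hl.2
      have h5 : l.length = n + 1 := by
        have h6 := hl.1
        unfold nba at h6
        rw [Finset.mem_biUnion] at h6
        obtain ⟨v, _, h7⟩ := h6
        rw [Finset.mem_image] at h7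
        obtain ⟨l', h8, rfl⟩ := h7
        have h9 : ∀ (n : ℕ) (u : Dir d), ∀ l ∈ nbl n u, l.length = n := by
          intro n
          induction n with
          | zero => intro u l hl; rw [nbl, Finset.mem_singleton] at hl; subst hl; rfl
          | succ n ih =>
            intro u l hl
            rw [nbl, Finset.mem_biUnion] at hl
            obtain ⟨v, _, h10⟩ := hl
            rw [Finset.mem_image] at h10
            obtain ⟨l', h11, rfl⟩ := h10
            rw [List.length_cons, ih _ _ h11]
        rw [List.length_cons, h9 _ _ _ h8]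
      rw [h5, Nat.add_sub_cancel] at h4
      exact h4
    refine (Finset.sum_le_sum h3).trans ?_
    rw [Finset.sum_const, nsmul_eq_mul]
    have h4 : (((nba d n).filter (fun l => (verts 0 l).Nodup)).card : ℝ) ≤
        2 * d * (2 * (d : ℝ) - 1) ^ n := by
      have h5 : ((nba d n).filter (fun l => (verts 0 l).Nodup)).card ≤ 2 * d * (2 * d - 1) ^ n :=
        (Finset.card_filter_le _ _).trans (nba_card d n)
      have h6 : (((nba d n).filter (fun l => (verts 0 l).Nodup)).card : ℝ) ≤
        ((2 * d * (2 * d - 1) ^ n : ℕ) : ℝ) := by exact_mod_cast h5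
      refine h6.trans (le_of_eq ?_)
      rw [Nat.cast_mul, Nat.cast_pow, Nat.cast_sub (by omega)]
      push_cast
      ring
    have h5 : phi d k 2 = (k : ℝ) * ((k : ℝ) - 1) / (2 * d * (2 * d - 1)) := by
      unfold phi
      rw [Finset.prod_range_succ, Finset.prod_range_succ, Finset.prod_range_zero]
      push_cast
      rw [one_mul, sub_zero, sub_zero, div_mul_div_comm]
    have h6 : (0 : ℝ) ≤ phi d k 2 ^ n := pow_nonneg (phi_bd hk 2).1 _
    refine (mul_le_mul_of_nonneg_right h4 h6).trans (le_of_eq ?_)
    rw [h5, mul_assoc, ← mul_pow]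
    congr 2
    have h7 : (2 * (d : ℝ) - 1) ≠ 0 := by
      have : 0 < 2 * (d : ℝ) - 1 := by linarith
      exact this.ne'
    field_simp
  have hratio : ((k : ℝ) * ((k : ℝ) - 1)) / (2 * d) < 1 := by
    rw [div_lt_one (by positivity)]
    rcases Nat.eq_zero_or_pos k with rfl | hk0
    · simp; linarith
    · have : ((k * (k - 1) : ℕ) : ℝ) < ((2 * d : ℕ) : ℝ) := by exact_mod_cast h
      rw [Nat.cast_mul, Nat.cast_sub (by omega)] at this
      push_cast at this
      exact this
  have hratio0 : 0 ≤ ((k : ℝ) * ((k : ℝ) - 1)) / (2 * d) := by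
    refine div_nonneg ?_ (by positivity)
    rcases Nat.eq_zero_or_pos k with rfl | hk0
    · simp
    · have : (1 : ℝ) ≤ k := by exact_mod_cast hk0
      nlinarith
  have hlim : Filter.Tendsto (fun n : ℕ => 2 * (d : ℝ) * (((k : ℝ) * ((k : ℝ) - 1)) / (2 * d)) ^ n)
      Filter.atTop (nhds 0) := by
    have := (tendsto_pow_atTop_nhds_zero_of_lt_one hratio0 hratio).const_mul (2 * (d : ℝ))
    simpa using this
  have h0 : (theta k d).toReal ≤ 0 := ge_of_tendsto hlim (Filter.Eventually.of_forall hbound)
  have h1 : (theta k d).toReal = 0 := le_antisymm h0 ENNReal.toReal_nonneg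
  have h2 : theta k d ≠ ⊤ := measure_ne_top _ _
  rwa [ENNReal.toReal_eq_zero_iff, or_iff_left h2] at h1

end Pool.Agent.R959.KN
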