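import Mathlib

set_option autoImplicit false
set_option linter.unusedSectionVars false
set_option linter.unusedVariables false

/-! Relative weights, heavy clusters, the heaviness threshold `p_h` and the weighted vertex
Cheeger constant of a graph with a group of automorphisms. -/

namespace Pool.Agent.R959.Wt

open MeasureTheory Set
open scoped ENNReal

section defs
variable {V : Type} (G : SimpleGraph V) (Γ : Subgroup (G ≃g G))

/-- The topology of pointwise convergence on `Aut(G)`, where `V` is discrete. -/
@[reducible] def pointwiseTop : TopologicalSpace (G ≃g G) :=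
  TopologicalSpace.induced (fun g : G ≃g G => (fun x => g x : V → V))
    (@Pi.topologicalSpace V (fun _ => V) (fun _ => ⊥))

/-- `Γ_x y`, the orbit of `y` under the stabiliser of `x` in `Γ`. -/
def orb (x y : V) : Set V := {z | ∃ γ ∈ Γ, γ x = x ∧ γ y = z}

/-- The relative weight `w^y(x) = |Γ_x y| / |Γ_y x|`. -/
noncomputable def wt (y x : V) : ℝ := ((orb G Γ x y).ncard : ℝ) / ((orb G Γ y x).ncard : ℝ)

/-- The total weight `w(K) = ∑_{x ∈ K} w^o(x)` of a set `K`, with reference vertex `o`. -/
noncomputable def wset (o : V) (K : Set V) : ℝ≥0∞ := ∑' x : K, ENNReal.ofReal (wt G Γ o x)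

/-- The external vertex boundary of `F`. -/
def bdry (F : Set V) : Set V := {y | y ∉ F ∧ ∃ x ∈ F, G.Adj x y}

/-- The weighted vertex Cheeger constant `inf_F w(∂_V F) / w(F)` over finite nonempty `F`. -/
noncomputable def cheeger (o : V) : ℝ :=
  sInf {r : ℝ | ∃ F : Set V, F.Finite ∧ F.Nonempty ∧
    r = (wset G Γ o (bdry G F)).toReal / (wset G Γ o F).toReal}

/-- Bernoulli(p) law on `Bool`. -/
noncomputable def bern (p : unitInterval) : Measure Bool :=
  ENNReal.ofReal (p : ℝ) • Measure.dirac true + ENNReal.ofReal (1 - (p : ℝ)) • Measure.dirac false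

/-- Bernoulli(p) bond percolation on `G`: the product law on `{open, closed}^E`. -/
noncomputable def perc (p : unitInterval) : Measure (G.edgeSet → Bool) :=
  Measure.infinitePi (fun _ => bern p)

/-- The open subgraph. -/
def openGraph (ω : G.edgeSet → Bool) : SimpleGraph V where
  Adj x y := ∃ h : s(x, y) ∈ G.edgeSet, ω ⟨s(x, y), h⟩ = true
  symm := ⟨by
    rintro x y ⟨h, h2⟩
    rw [Sym2.eq_swap] at h
    refine ⟨h, ?_⟩
    have : (⟨s(y, x), h⟩ : G.edgeSet) = ⟨s(x, y), by rw [Sym2.eq_swap]; exact h⟩ := by
      apply Subtype.ext; exact Sym2.eq_swap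
    rw [this]; exact h2⟩
  loopless := ⟨by
    rintro x ⟨h, _⟩
    simp at h⟩

/-- The cluster of `x`: the vertices joined to `x` in the open subgraph. -/
def cluster (ω : G.edgeSet → Bool) (x : V) : Set V := {y | (openGraph G ω).Reachable x y}

/-- The heaviness threshold `p_h = inf {p ∈ [0,1] : P_p(some cluster is heavy) > 0}`. -/
noncomputable def ph (o : V) : ℝ :=
  sInf {x : ℝ | ∃ p : unitInterval, (p : ℝ) = x ∧
    0 < perc G p {ω | ∃ v, wset G Γ o (cluster G ω v) = ⊤}}

end defs

theorem bern_true (p : unitInterval) : bern p {true} = ENNReal.ofReal (p : ℝ) := by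
  simp [bern]

instance (p : unitInterval) : IsProbabilityMeasure (bern p) := by
  constructor
  have h0 := p.2.1
  have h1 := p.2.2
  simp only [bern, Measure.coe_add, Measure.coe_smul, Pi.add_apply, Pi.smul_apply,
    measure_univ, smul_eq_mul, mul_one]
  rw [← ENNReal.ofReal_add h0 (by linarith)]
  simp

section perc
variable {V : Type} {G : SimpleGraph V}

instance (p : unitInterval) : IsProbabilityMeasure (perc G p) := by
  unfold perc; infer_instance

theorem walk_countable [Countable V] (x y : V) : Countable (G.Walk x y) := by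
  refine Function.Injective.countable (f := fun q : G.Walk x y => q.support) ?_
  intro p q h
  exact SimpleGraph.Walk.ext_support h

/-- all edges of the walk are open -/
def wopen {x y : V} (q : G.Walk x y) : Set (G.edgeSet → Bool) :=
  {ω | ∀ e (he : e ∈ q.edges), ω ⟨e, q.edges_subset_edgeSet he⟩ = true}

open Classical in
theorem wopen_eq {x y : V} (q : G.Walk x y) :
    wopen q = Set.pi ((q.edges.attach.map fun e => (⟨e.1, q.edges_subset_edgeSet e.2⟩ : G.edgeSet)).toFinset : Set G.edgeSet)
      (fun _ => {true}) := by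
  classical
  ext ω
  simp only [wopen, mem_setOf_eq, Set.mem_pi, Finset.mem_coe, List.mem_toFinset, List.mem_map,
    List.mem_attach, true_and, Subtype.exists, mem_singleton_iff]
  constructor
  · rintro h i ⟨e, he, rfl⟩
    exact h e he
  · intro h e he
    exact h _ ⟨e, he, rfl⟩

theorem wopen_meas {x y : V} (q : G.Walk x y) : MeasurableSet (wopen q) := by
  rw [wopen_eq]
  exact MeasurableSet.pi (Finset.countable_toSet _) fun _ _ => MeasurableSet.singleton _

theorem perc_wopen (p : unitInterval) {x y : V} (q : G.Walk x y) (hq : q.IsPath) :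
    perc G p (wopen q) = ENNReal.ofReal (p : ℝ) ^ q.length := by
  classical
  rw [wopen_eq, perc, Measure.infinitePi_pi _ (fun _ _ => MeasurableSet.singleton _)]
  rw [Finset.prod_const, bern_true, List.toFinset_card_of_nodup]
  · simp
  · refine List.Nodup.map ?_ ?_
    · intro a b h
      simp only [Subtype.mk.injEq] at h
      exact Subtype.ext h
    · exact List.nodup_attach.2 hq.isTrail.edges_nodup

theorem exists_path_of_mem_cluster {ω : G.edgeSet → Bool} {x y : V} (h : y ∈ cluster G ω x) :
    ∃ q : G.Walk x y, q.IsPath ∧ ω ∈ wopen q := by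
  obtain ⟨r, hr⟩ := SimpleGraph.Reachable.exists_isPath h
  have hle : openGraph G ω ≤ G := by
    intro a b hab
    obtain ⟨h1, _⟩ := hab
    simpa using h1
  refine ⟨r.mapLe hle, ?_, ?_⟩
  · exact SimpleGraph.Walk.IsPath.mapLe hle hr
  · intro e he
    have he' : e ∈ r.edges := by simpa using he
    have := r.edges_subset_edgeSet he'
    induction e using Sym2.ind with
    | _ a b =>
      obtain ⟨h1, h2⟩ := (show (openGraph G ω).Adj a b by simpa using this)
      exact h2

/-- weighted number of walks of length `n` -/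
noncomputable def nw (s : V → ℝ≥0∞) (n : ℕ) (x : V) : ℝ≥0∞ :=
  ∑' q : (Σ y, {q : G.Walk x y // q.length = n}), s q.1

theorem nw_zero (s : V → ℝ≥0∞) (x : V) : nw (G := G) s 0 x ≤ s x := by
  unfold nw
  have h1 : ∀ q : (Σ y, {q : G.Walk x y // q.length = 0}), q = ⟨x, .nil, rfl⟩ := by
    rintro ⟨y, q, hq⟩
    cases q with
    | nil => rfl
    | cons _ _ => simp at hq
  calc ∑' q : (Σ y, {q : G.Walk x y // q.length = 0}), s q.1
      = ∑' q : (Σ y, {q : G.Walk x y // q.length = 0}), (fun _ : Unit => s x) ((fun _ => ()) q) := by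
        refine tsum_congr fun q => ?_
        rw [h1 q]
    _ ≤ ∑' _ : Unit, s x := by
        refine ENNReal.tsum_comp_le_tsum_of_injective
          (f := fun _ : (Σ y, {q : G.Walk x y // q.length = 0}) => ()) ?_ (fun _ : Unit => s x)
        intro a b _
        rw [h1 a, h1 b]
    _ = s x := by simp

/-- first-step decomposition -/
def stepMap (n : ℕ) (x : V) (q : Σ y, {q : G.Walk x y // q.length = n + 1}) :
    Σ z : G.neighborSet x, Σ y, {q : G.Walk z y // q.length = n} :=
  match q with
  | ⟨y, .cons (v := z) h q, hq⟩ => ⟨⟨z, h⟩, y, q, by simpa using hq⟩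

theorem stepMap_fst (n : ℕ) (x : V) (q : Σ y, {q : G.Walk x y // q.length = n + 1}) :
    (stepMap n x q).2.1 = q.1 := by
  rcases q with ⟨y, q, hq⟩
  cases q with
  | nil => simp at hq
  | cons h q => rfl

theorem stepMap_inj (n : ℕ) (x : V) : Function.Injective (stepMap (G := G) n x) := by
  rintro ⟨y, q, hq⟩ ⟨y', q', hq'⟩ h
  cases q with
  | nil => simp at hq
  | cons h1 q =>
    cases q' with
    | nil => simp at hq'
    | cons h2 q' =>
      simp only [stepMap] at h
      cases h
      rfl

theorem nw_succ (s : V → ℝ≥0∞) (n : ℕ) (x : V) :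
    nw (G := G) s (n + 1) x ≤ ∑' z : G.neighborSet x, nw (G := G) s n z := by
  unfold nw
  calc ∑' q : (Σ y, {q : G.Walk x y // q.length = n + 1}), s q.1
      = ∑' q : (Σ y, {q : G.Walk x y // q.length = n + 1}),
          (fun r : (Σ z : G.neighborSet x, Σ y, {q : G.Walk z y // q.length = n}) => s r.2.1)
            (stepMap n x q) := by
        refine tsum_congr fun q => ?_
        simp only [stepMap_fst]
    _ ≤ ∑' r : (Σ z : G.neighborSet x, Σ y, {q : G.Walk z y // q.length = n}), s r.2.1 :=
        ENNReal.tsum_comp_le_tsum_of_injective (stepMap_inj n x)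
          (fun r : (Σ z : G.neighborSet x, Σ y, {q : G.Walk z y // q.length = n}) => s r.2.1)
    _ = _ := by
        rw [ENNReal.tsum_sigma']

theorem nw_le (s : V → ℝ≥0∞) (M : ℝ≥0∞) (hM : ∀ x, ∑' y : G.neighborSet x, s y ≤ M * s x)
    (n : ℕ) : ∀ x : V, nw (G := G) s n x ≤ M ^ n * s x := by
  induction n with
  | zero => intro x; simpa using nw_zero s x
  | succ n ih =>
    intro x
    calc nw (G := G) s (n + 1) x ≤ ∑' z : G.neighborSet x, nw (G := G) s n z := nw_succ s n x
      _ ≤ ∑' z : G.neighborSet x, M ^ n * s z := ENNReal.tsum_le_tsum fun z => ih z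
      _ = M ^ n * ∑' z : G.neighborSet x, s z := ENNReal.tsum_mul_left
      _ ≤ M ^ n * (M * s x) := mul_le_mul_right (hM x) _
      _ = _ := by rw [pow_succ, mul_assoc]

/-- If `∑_{y ~ x} s(y) ≤ M s(x)` and `p M < 1` then a.s. every cluster has finite `s`-mass. -/
theorem cluster_light [Countable V] (p : unitInterval) (s : V → ℝ≥0∞) (hs : ∀ x, s x ≠ ⊤)
    (M : ℝ≥0∞) (hM : ∀ x, ∑' y : G.neighborSet x, s y ≤ M * s x)
    (hp : ENNReal.ofReal (p : ℝ) * M < 1) :
    ∀ᵐ ω ∂(perc G p), ∀ v, ∑' y : cluster G ω v, s y < ⊤ := by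
  classical
  rw [ae_all_iff]
  intro v
  have : ∀ y, Countable (G.Walk v y) := fun y => walk_countable v y
  -- the dominating random variable
  set X : (G.edgeSet → Bool) → ℝ≥0∞ := fun ω =>
    ∑' q : (Σ y, {q : G.Walk v y // q.IsPath}), (wopen q.2.1).indicator (fun _ => s q.1) ω with hX
  have hXm : Measurable X := by
    refine Measurable.tsum fun q => ?_
    exact measurable_const.indicator (wopen_meas _)
  have hint : ∫⁻ ω, X ω ∂(perc G p) < ⊤ := by
    rw [hX, lintegral_tsum (fun q => (measurable_const.indicator (wopen_meas _)).aemeasurable)]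
    have h1 : ∀ q : (Σ y, {q : G.Walk v y // q.IsPath}),
        ∫⁻ ω, (wopen q.2.1).indicator (fun _ => s q.1) ω ∂(perc G p) =
          ENNReal.ofReal (p : ℝ) ^ q.2.1.length * s q.1 := by
      intro q
      rw [lintegral_indicator (wopen_meas _), lintegral_const, Measure.restrict_apply_univ,
        perc_wopen p _ q.2.2, mul_comm]
    rw [tsum_congr h1]
    calc ∑' q : (Σ y, {q : G.Walk v y // q.IsPath}), ENNReal.ofReal (p : ℝ) ^ q.2.1.length * s q.1
        = ∑' q : (Σ y, {q : G.Walk v y // q.IsPath}),
            (fun r : (Σ n : ℕ, Σ y, {q : G.Walk v y // q.length = n}) =>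
              ENNReal.ofReal (p : ℝ) ^ r.1 * s r.2.1)
            ((fun q => ⟨q.2.1.length, q.1, q.2.1, rfl⟩) q) := rfl
      _ ≤ ∑' r : (Σ n : ℕ, Σ y, {q : G.Walk v y // q.length = n}),
              ENNReal.ofReal (p : ℝ) ^ r.1 * s r.2.1 := by
          refine ENNReal.tsum_comp_le_tsum_of_injective ?_
            (fun r : (Σ n : ℕ, Σ y, {q : G.Walk v y // q.length = n}) =>
              ENNReal.ofReal (p : ℝ) ^ r.1 * s r.2.1)
          rintro ⟨y, q, hq⟩ ⟨y', q', hq'⟩ h
          simp only [Sigma.mk.injEq] at h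
          obtain ⟨h1, h2⟩ := h
          obtain ⟨rfl, h3⟩ : y = y' ∧ HEq q q' := by
            have : ∀ (n m : ℕ) (e : n = m) (a : Σ y, {q : G.Walk v y // q.length = n})
                (b : Σ y, {q : G.Walk v y // q.length = m}), HEq a b →
                a.1 = b.1 ∧ HEq a.2.1 b.2.1 := by
              rintro n m rfl a b hab
              rw [heq_iff_eq] at hab
              subst hab
              exact ⟨rfl, HEq.rfl⟩
            exact this _ _ h1 _ _ h2
          rw [heq_iff_eq] at h3
          subst h3
          rfl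
      _ = ∑' n : ℕ, ENNReal.ofReal (p : ℝ) ^ n * nw (G := G) s n v := by
          rw [ENNReal.tsum_sigma']
          refine tsum_congr fun n => ?_
          change ∑' b : (Σ y, {q : G.Walk v y // q.length = n}),
            ENNReal.ofReal (p : ℝ) ^ n * s b.1 = _
          rw [ENNReal.tsum_mul_left]
          rfl
      _ ≤ ∑' n : ℕ, (ENNReal.ofReal (p : ℝ) * M) ^ n * s v := by
          refine ENNReal.tsum_le_tsum fun n => ?_
          calc ENNReal.ofReal (p : ℝ) ^ n * nw (G := G) s n v
              ≤ ENNReal.ofReal (p : ℝ) ^ n * (M ^ n * s v) :=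
                mul_le_mul_right (nw_le s M hM n v) _
            _ = _ := by rw [mul_pow, mul_assoc]
      _ = (1 - ENNReal.ofReal (p : ℝ) * M)⁻¹ * s v := by
          rw [ENNReal.tsum_mul_right, ENNReal.tsum_geometric]
      _ < ⊤ := by
          refine ENNReal.mul_lt_top ?_ (lt_top_iff_ne_top.2 (hs v))
          rw [ENNReal.inv_lt_top]
          exact tsub_pos_of_lt hp
  filter_upwards [ae_lt_top hXm hint.ne] with ω hω
  refine lt_of_le_of_lt ?_ hω
  choose q hq1 hq2 using fun y : cluster G ω v => exists_path_of_mem_cluster y.2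
  calc ∑' y : cluster G ω v, s y
      = ∑' y : cluster G ω v, (fun r : (Σ y, {q : G.Walk v y // q.IsPath}) =>
          (wopen r.2.1).indicator (fun _ => s r.1) ω) ((fun y => ⟨y, q y, hq1 y⟩) y) := by
        refine tsum_congr fun y => ?_
        simp only
        rw [Set.indicator_of_mem (hq2 y)]
    _ ≤ X ω := by
        refine ENNReal.tsum_comp_le_tsum_of_injective ?_
          (fun r : (Σ y, {q : G.Walk v y // q.IsPath}) =>
            (wopen r.2.1).indicator (fun _ => s r.1) ω)
        intro a b h
        simp only [Sigma.mk.injEq] at h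
        exact Subtype.ext h.1

end perc

end Pool.Agent.R959.Wt
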